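import Pool.Agent.H59.L.S8.W558.Refine

set_option autoImplicit false
set_option linter.unusedVariables false
set_option linter.unusedSectionVars false

universe u v

open Polynomial

namespace Pool.Agent.W558

section nu

variable {k E : Type u} [Field k] [Field E] [Algebra k E]

/-- Nonunits. -/
def NU (O : Subalgebra k E) (x : E) : Prop := x ∈ O ∧ ∀ y ∈ O, x * y ≠ 1

variable {O : Subalgebra k E} {x y : E}

lemma NU.mem (h : NU O x) : x ∈ O := h.1

lemma NU.zero : NU O 0 := ⟨O.zero_mem, fun y _ => by rw [zero_mul]; exact zero_ne_one⟩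

lemma not_NU_one : ¬ NU O 1 := fun h => h.2 1 O.one_mem (one_mul 1)

lemma NU.mul_right (h : NU O x) (hy : y ∈ O) : NU O (x * y) :=
  ⟨O.mul_mem h.1 hy, fun z hz h1 => h.2 (y * z) (O.mul_mem hy hz) (by rw [← mul_assoc]; exact h1)⟩

lemma NU.mul_left (h : NU O x) (hy : y ∈ O) : NU O (y * x) := by
  rw [mul_comm]; exact h.mul_right hy

lemma NU.neg (h : NU O x) : NU O (-x) := by
  have := h.mul_right (O.neg_mem O.one_mem)
  rwa [mul_neg, mul_one] at this

lemma not_NU_iff (hx : x ∈ O) : ¬ NU O x ↔ x ≠ 0 ∧ x⁻¹ ∈ O := by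
  constructor
  · intro h
    unfold NU at h
    push Not at h
    obtain ⟨y, hy, h1⟩ := h hx
    have h0 : x ≠ 0 := by rintro rfl; rw [zero_mul] at h1; exact zero_ne_one h1
    rw [eq_inv_of_mul_eq_one_right h1] at hy
    exact ⟨h0, hy⟩
  · rintro ⟨h0, h1⟩ h
    exact h.2 _ h1 (mul_inv_cancel₀ h0)

lemma not_NU_of_inv (h0 : x ≠ 0) (h : x⁻¹ ∈ O) : ¬ NU O x := fun h1 =>
  h1.2 _ h (mul_inv_cancel₀ h0)

lemma NU.inv_not_mem (h : NU O x) (h0 : x ≠ 0) : x⁻¹ ∉ O := fun h1 => not_NU_of_inv h0 h1 h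

lemma not_NU_mul (hx : x ∈ O) (hy : y ∈ O) (h1 : ¬ NU O x) (h2 : ¬ NU O y) : ¬ NU O (x * y) := by
  rw [not_NU_iff hx] at h1
  rw [not_NU_iff hy] at h2
  rw [not_NU_iff (O.mul_mem hx hy)]
  exact ⟨mul_ne_zero h1.1 h2.1, by rw [mul_inv]; exact O.mul_mem h1.2 h2.2⟩

lemma NU_mul_iff (hx : x ∈ O) (hy : y ∈ O) : NU O (x * y) ↔ NU O x ∨ NU O y := by
  constructor
  · intro h
    by_contra h1
    rw [not_or] at h1
    exact not_NU_mul hx hy h1.1 h1.2 h
  · rintro (h | h)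
    · exact h.mul_right hy
    · exact h.mul_left hx

lemma NU_pow {n : ℕ} (hx : x ∈ O) (h : NU O (x ^ n)) : NU O x := by
  induction n with
  | zero => rw [pow_zero] at h; exact absurd h not_NU_one
  | succ n ih =>
    rw [pow_succ, NU_mul_iff (O.pow_mem hx n) hx] at h
    exact h.elim ih id

/-- `O` is the local ring of a closed point of `Spec A`. -/
structure IsPt (A O : Subalgebra k E) : Prop where
  le : A ≤ O
  frac : ∀ x ∈ O, ∃ a ∈ A, ∃ b ∈ A, b ≠ 0 ∧ b⁻¹ ∈ O ∧ x = a * b⁻¹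
  loc : ∀ x y, NU O x → NU O y → NU O (x + y)
  alg : ∀ x ∈ O, ∃ P : k[X], P ≠ 0 ∧ NU O (aeval x P)

variable {A B : Subalgebra k E}

lemma IsPt.sub (h : IsPt A O) (hx : NU O x) (hy : NU O y) : NU O (x - y) := by
  rw [sub_eq_add_neg]; exact h.loc _ _ hx hy.neg

lemma IsPt.up (h : IsPt A O) (h1 : A ≤ B) (h2 : B ≤ O) : IsPt B O where
  le := h2
  frac := fun x hx => by
    obtain ⟨a, ha, b, hb, h3⟩ := h.frac x hx
    exact ⟨a, h1 ha, b, h1 hb, h3⟩
  loc := h.loc
  alg := h.alg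

lemma IsPt.down (h : IsPt B O) (h1 : A ≤ B) {d : E} (hd : d ∈ A) (hd0 : d ≠ 0) (hdi : d⁻¹ ∈ O)
    (h2 : ∀ b ∈ B, ∃ n : ℕ, b * d ^ n ∈ A) : IsPt A O where
  le := h1.trans h.le
  frac := fun x hx => by
    obtain ⟨a, ha, b, hb, hb0, hbi, rfl⟩ := h.frac x hx
    obtain ⟨n, hn⟩ := h2 a ha
    obtain ⟨m, hm⟩ := h2 b hb
    refine ⟨a * d ^ n * d ^ m, A.mul_mem hn (A.pow_mem hd m), b * d ^ m * d ^ n,
      A.mul_mem hm (A.pow_mem hd n), ?_, ?_, ?_⟩
    · exact mul_ne_zero (mul_ne_zero hb0 (pow_ne_zero _ hd0)) (pow_ne_zero _ hd0)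
    · rw [mul_inv, mul_inv, ← inv_pow, ← inv_pow]
      exact O.mul_mem (O.mul_mem hbi (O.pow_mem hdi m)) (O.pow_mem hdi n)
    · have := pow_ne_zero n hd0
      have := pow_ne_zero m hd0
      field_simp
  loc := h.loc
  alg := h.alg

/-- Points of glued charts. -/
lemma IsPt.glue (h : IsPt A O) (h1 : B ≤ O) {ρ : E} (h0 : ρ ≠ 0) (hρ : ρ ∈ A) (hρ' : ρ⁻¹ ∈ B)
    (h2 : ∀ a ∈ A, ∃ n : ℕ, (ρ⁻¹) ^ n * a ∈ B) : IsPt B O where
  le := h1
  frac := fun x hx => by
    obtain ⟨a, ha, b, hb, hb0, hbi, rfl⟩ := h.frac x hx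
    obtain ⟨n, hn⟩ := h2 a ha
    obtain ⟨m, hm⟩ := h2 b hb
    have hρ1 : ρ ∈ O := h.le hρ
    refine ⟨ρ⁻¹ ^ m * (ρ⁻¹ ^ n * a), B.mul_mem (B.pow_mem hρ' m) hn,
      ρ⁻¹ ^ n * (ρ⁻¹ ^ m * b), B.mul_mem (B.pow_mem hρ' n) hm, ?_, ?_, ?_⟩
    · have := inv_ne_zero h0
      exact mul_ne_zero (pow_ne_zero _ this) (mul_ne_zero (pow_ne_zero _ this) hb0)
    · rw [mul_inv, mul_inv, ← inv_pow, ← inv_pow, inv_inv]
      exact O.mul_mem (O.pow_mem hρ1 n) (O.mul_mem (O.pow_mem hρ1 m) hbi)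
    · have := pow_ne_zero n h0
      have := pow_ne_zero m h0
      field_simp
  loc := h.loc
  alg := h.alg

/-- The maximal ideal of a point. -/
def IsPt.mx (h : IsPt A O) : Ideal A where
  carrier := {a | NU O a}
  add_mem' := fun {a b} ha hb => h.loc _ _ ha hb
  zero_mem' := NU.zero
  smul_mem' := fun c a ha => by
    change NU O (c * a)
    exact NU.mul_left ha (h.le c.2)

lemma IsPt.mem_mx (h : IsPt A O) {a : A} : a ∈ h.mx ↔ NU O a := Iff.rfl

/-- Elements which are not in the maximal ideal are invertible modulo the maximal ideal. -/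
lemma IsPt.exists_inv (h : IsPt A O) {a : E} (ha : a ∈ A) (hna : ¬ NU O a) :
    ∃ b ∈ A, NU O (a * b - 1) := by
  obtain ⟨P, hP, hP1⟩ := h.alg a (h.le ha)
  obtain ⟨Q, hQ, hQ0⟩ := Polynomial.exists_eq_pow_rootMultiplicity_mul_and_not_dvd P hP 0
  rw [map_zero, sub_zero] at hQ hQ0
  set n := rootMultiplicity 0 P
  rw [hQ, map_mul, map_pow, aeval_X] at hP1
  have hQA : aeval a Q ∈ A := by
    have := Algebra.adjoin_le (S := A) (Set.singleton_subset_iff.2 ha)
    exact this (aeval_mem_adjoin_singleton k a)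
  rw [NU_mul_iff (O.pow_mem (h.le ha) n) (h.le hQA)] at hP1
  have hQ1 : NU O (aeval a Q) := hP1.resolve_left fun h1 => hna (NU_pow (h.le ha) h1)
  have hc : Q.coeff 0 ≠ 0 := fun h0 => hQ0 (X_dvd_iff.2 h0)
  set c := Q.coeff 0
  have hdiv : aeval a Q = a * aeval a Q.divX + algebraMap k E c := by
    conv_lhs => rw [← Q.divX_mul_X_add]
    rw [map_add, map_mul, aeval_X, aeval_C]
    ring
  have hDA : aeval a Q.divX ∈ A := by
    have := Algebra.adjoin_le (S := A) (Set.singleton_subset_iff.2 ha)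
    exact this (aeval_mem_adjoin_singleton k a)
  refine ⟨-(algebraMap k E c⁻¹ * aeval a Q.divX),
    A.neg_mem (A.mul_mem (A.algebraMap_mem _) hDA), ?_⟩
  have e : a * -(algebraMap k E c⁻¹ * aeval a Q.divX) - 1 =
      aeval a Q * (-algebraMap k E c⁻¹) := by
    rw [hdiv]
    have : algebraMap k E c * algebraMap k E c⁻¹ = 1 := by
      rw [← map_mul, mul_inv_cancel₀ hc, map_one]
    linear_combination this
  rw [e]
  exact hQ1.mul_right (O.neg_mem (O.algebraMap_mem _))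

lemma IsPt.isMaximal (h : IsPt A O) : h.mx.IsMaximal := by
  rw [Ideal.isMaximal_iff]
  refine ⟨fun h1 => not_NU_one h1, ?_⟩
  intro J a hJ ha haJ
  obtain ⟨b, hb, h1⟩ := h.exists_inv a.2 ha
  have h2 : (a * ⟨b, hb⟩ - 1 : A) ∈ J := hJ h1
  have h3 : (a * ⟨b, hb⟩ : A) ∈ J := J.mul_mem_right _ haJ
  have := J.sub_mem h3 h2
  rwa [sub_sub_cancel] at this

/-- Two points of a chart with comparable maximal ideals are equal. -/
lemma IsPt.le_of_mx {O' : Subalgebra k E} (h : IsPt A O) (hle : A ≤ O')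
    (hadd : ∀ x y, NU O' x → NU O' y → NU O' (x + y))
    (h1 : ∀ a ∈ A, NU O a → NU O' a) : O ≤ O' ∧ ∀ x, NU O x → NU O' x := by
  have h2 : ∀ a ∈ A, ¬ NU O a → ¬ NU O' a := by
    intro a ha hna hna'
    obtain ⟨b, hb, h3⟩ := h.exists_inv ha hna
    have h4 := h1 _ (A.sub_mem (A.mul_mem ha hb) A.one_mem) h3
    have h5 := hna'.mul_right (hle hb)
    have h6 := hadd _ _ h5 h4.neg
    rw [← sub_eq_add_neg, sub_sub_cancel] at h6
    exact not_NU_one h6
  have h3 : ∀ b ∈ A, b ≠ 0 → b⁻¹ ∈ O → b⁻¹ ∈ O' := by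
    intro b hb hb0 hbi
    exact ((not_NU_iff (hle hb)).1 (h2 b hb (not_NU_of_inv hb0 hbi))).2
  constructor
  · intro x hx
    obtain ⟨a, ha, b, hb, hb0, hbi, rfl⟩ := h.frac x hx
    exact O'.mul_mem (hle ha) (h3 b hb hb0 hbi)
  · intro x hx
    obtain ⟨a, ha, b, hb, hb0, hbi, rfl⟩ := h.frac x hx.1
    have h4 : NU O a := by
      have := hx.mul_right (h.le hb)
      rwa [inv_mul_cancel_right₀ hb0] at this
    exact (h1 a ha h4).mul_right (h3 b hb hb0 hbi)

lemma IsPt.eq_of_mx {O' : Subalgebra k E} (h : IsPt A O) (h' : IsPt A O')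
    (h1 : ∀ a ∈ A, NU O a → NU O' a) : O = O' := by
  refine le_antisymm (h.le_of_mx h'.le h'.loc h1).1 (h'.le_of_mx h.le h.loc ?_).1
  intro a ha hna
  by_contra hn
  obtain ⟨b, hb, h3⟩ := h.exists_inv ha hn
  have h4 := h1 _ (A.sub_mem (A.mul_mem ha hb) A.one_mem) h3
  have h5 := hna.mul_right (h'.le hb)
  have h6 := h'.sub h5 h4
  rw [sub_sub_cancel] at h6
  exact not_NU_one h6

end nu

section loc

variable {k E : Type u} [Field k] [Field E] [Algebra k E]

/-- The local ring of a prime ideal. -/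
def locAt (A : Subalgebra k E) (q : Ideal A) (hq : q.IsPrime) : Subalgebra k E where
  carrier := {x | ∃ a b : A, b ∉ q ∧ x * b = a}
  mul_mem' := by
    rintro x y ⟨a, b, hb, h1⟩ ⟨a', b', hb', h2⟩
    refine ⟨a * a', b * b', fun h => (hq.mem_or_mem h).elim hb hb', ?_⟩
    push_cast
    rw [← h1, ← h2]; ring
  add_mem' := by
    rintro x y ⟨a, b, hb, h1⟩ ⟨a', b', hb', h2⟩
    refine ⟨a * b' + a' * b, b * b', fun h => (hq.mem_or_mem h).elim hb hb', ?_⟩
    push_cast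
    rw [← h1, ← h2]; ring
  algebraMap_mem' := by
    intro r
    refine ⟨algebraMap k A r, 1, fun h => hq.ne_top ((Ideal.eq_top_iff_one q).2 h), ?_⟩
    rw [Subalgebra.coe_one, mul_one]
    rfl

variable {A : Subalgebra k E} {q : Ideal A} {hq : q.IsPrime}

lemma le_locAt : A ≤ locAt A q hq := fun a ha =>
  ⟨⟨a, ha⟩, 1, fun h => hq.ne_top ((Ideal.eq_top_iff_one q).2 h), by simp⟩

lemma coe_ne_zero_of_notMem {b : A} (hb : b ∉ q) : (b : E) ≠ 0 := fun h => hb (by
  have : b = 0 := Subtype.ext h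
  rw [this]; exact q.zero_mem)

lemma inv_mem_locAt {b : A} (hb : b ∉ q) : (b : E)⁻¹ ∈ locAt A q hq := by
  refine ⟨1, b, hb, ?_⟩
  rw [inv_mul_cancel₀ (coe_ne_zero_of_notMem hb)]
  rfl

lemma NU_locAt {a : A} : NU (locAt A q hq) a ↔ a ∈ q := by
  constructor
  · intro h
    by_contra hn
    exact not_NU_of_inv (coe_ne_zero_of_notMem hn) (inv_mem_locAt hn) h
  · intro h
    refine ⟨le_locAt a.2, ?_⟩
    rintro y ⟨c, b, hb, h1⟩ h2
    apply hb
    have h3 : b = a * c := by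
      apply Subtype.ext
      rw [Subalgebra.coe_mul, ← h1, ← mul_assoc, h2, one_mul]
    rw [h3]
    exact q.mul_mem_right _ h

lemma isPt_locAt [Algebra.FiniteType k A] (hm : q.IsMaximal) : IsPt A (locAt A q hq) := by
  have hNU : ∀ x, NU (locAt A q hq) x ↔ ∃ a b : A, a ∈ q ∧ b ∉ q ∧ x * b = a := by
    intro x
    constructor
    · intro h
      obtain ⟨a, b, hb, h1⟩ := h.1
      refine ⟨a, b, ?_, hb, h1⟩
      rw [← NU_locAt (hq := hq), ← h1]
      exact h.mul_right (le_locAt b.2)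
    · rintro ⟨a, b, ha, hb, h1⟩
      have h2 : x = a * (b : E)⁻¹ := by
        have := coe_ne_zero_of_notMem hb
        rw [← h1]; field_simp
      rw [h2]
      exact (NU_locAt.2 ha).mul_right (inv_mem_locAt hb)
  have hadd : ∀ x y, NU (locAt A q hq) x → NU (locAt A q hq) y → NU (locAt A q hq) (x + y) := by
    intro x y hx hy
    obtain ⟨a, b, ha, hb, h1⟩ := (hNU x).1 hx
    obtain ⟨a', b', ha', hb', h2⟩ := (hNU y).1 hy
    refine (hNU _).2 ⟨a * b' + a' * b, b * b', ?_, fun h => (hq.mem_or_mem h).elim hb hb', ?_⟩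
    · exact q.add_mem (q.mul_mem_right _ ha) (q.mul_mem_right _ ha')
    · push_cast
      rw [← h1, ← h2]; ring
  refine ⟨le_locAt, ?_, hadd, ?_⟩
  · rintro x ⟨a, b, hb, h1⟩
    have hb0 := coe_ne_zero_of_notMem hb
    refine ⟨a, a.2, b, b.2, hb0, inv_mem_locAt hb, ?_⟩
    rw [← h1]; field_simp
  · -- residues are algebraic
    let _ : Field (A ⧸ q) := Ideal.Quotient.field q
    have hfin : Module.Finite k (A ⧸ q) := finite_of_finite_type_of_isJacobsonRing k (A ⧸ q)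
    rintro x ⟨a, b, hb, h1⟩
    have hb0 := coe_ne_zero_of_notMem hb
    -- an inverse of `b`
    obtain ⟨c, hc⟩ : ∃ c : A, b * c - 1 ∈ q := by
      obtain ⟨c, hc⟩ := Ideal.Quotient.mk_surjective (I := q) (Ideal.Quotient.mk q b)⁻¹
      refine ⟨c, ?_⟩
      rw [← Ideal.Quotient.eq_zero_iff_mem, map_sub, map_mul, hc, map_one,
        mul_inv_cancel₀, sub_self]
      rwa [ne_eq, Ideal.Quotient.eq_zero_iff_mem]
    obtain ⟨P, hP, hP1⟩ := Algebra.IsAlgebraic.isAlgebraic (R := k) (Ideal.Quotient.mk q (a * c))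
    refine ⟨P, hP, ?_⟩
    have h2 : aeval (a * c) P ∈ q := by
      rw [← Ideal.Quotient.eq_zero_iff_mem]
      have := Polynomial.aeval_algHom_apply (Ideal.Quotient.mkₐ k q) (a * c) P
      rw [← hP1]
      exact this.symm
    have hx : x ∈ locAt A q hq := ⟨a, b, hb, h1⟩
    have h3 : NU (locAt A q hq) (aeval ((a * c : A) : E) P) := by
      have e : aeval ((a * c : A) : E) P = ((aeval (a * c) P : A) : E) :=
        Polynomial.aeval_algHom_apply A.val (a * c) P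
      rw [e, NU_locAt]
      exact h2
    have h4 : NU (locAt A q hq) (x - ((a * c : A) : E)) := by
      have e : x - ((a * c : A) : E) = ((b * c - 1 : A) : E) * (-x) := by
        push_cast
        rw [← h1]; ring
      rw [e]
      exact (NU_locAt.2 hc).mul_right ((locAt A q hq).neg_mem hx)
    -- the difference of the values of a polynomial
    have h5 : ∃ z ∈ locAt A q hq, aeval x P - aeval ((a * c : A) : E) P =
        (x - ((a * c : A) : E)) * z := by
      let X1 : locAt A q hq := ⟨x, hx⟩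
      let X2 : locAt A q hq := ⟨((a * c : A) : E), le_locAt (a * c).2⟩
      obtain ⟨z, hz⟩ : X1 - X2 ∣ aeval X1 P - aeval X2 P := by
        rw [aeval_def, aeval_def, eval₂_eq_eval_map, eval₂_eq_eval_map]
        exact sub_dvd_eval_sub _ _ _
      refine ⟨z, z.2, ?_⟩
      have e1 : aeval x P = ((aeval X1 P : locAt A q hq) : E) :=
        Polynomial.aeval_algHom_apply (locAt A q hq).val X1 P
      have e2 : aeval ((a * c : A) : E) P = ((aeval X2 P : locAt A q hq) : E) :=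
        Polynomial.aeval_algHom_apply (locAt A q hq).val X2 P
      rw [e1, e2]
      exact congrArg Subtype.val hz
    obtain ⟨z, hz, h6⟩ := h5
    have h7 : aeval x P = (x - ((a * c : A) : E)) * z + aeval ((a * c : A) : E) P := by
      rw [← h6]; ring
    rw [h7]
    exact hadd _ _ (h4.mul_right hz) h3

end loc

end Pool.Agent.W558
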