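import Pool.Agent.H59.L.S8.W558.Init

set_option autoImplicit false
set_option linter.unusedVariables false
set_option linter.unusedSectionVars false

universe u v

open AlgebraicGeometry CategoryTheory Pool.Agent.H920R2 MvPolynomial

namespace Pool.Agent.W558

section aux

/-- Linear functionals with given values on a linearly independent family. -/
lemma exists_dual {F : Type*} [Field F] {n : ℕ} {Q : Type*} {v : Q → Fin n → F}
    (h : LinearIndependent F v) (t : Q → F) : ∃ b : Fin n → F, ∀ q, ∑ s, b s * v q s = t q := by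
  obtain ⟨φ, hφ⟩ : ∃ φ : (Fin n → F) →ₗ[F] F, ∀ q, φ (v q) = t q := by
    obtain ⟨φ, hφ⟩ := LinearMap.exists_extend
      ((Finsupp.linearCombination F t).comp h.repr)
    refine ⟨φ, fun q => ?_⟩
    have h1 := congrArg (fun f => f ⟨v q, Submodule.subset_span ⟨q, rfl⟩⟩) hφ
    simp only [LinearMap.comp_apply, Submodule.subtype_apply] at h1
    rw [h1]
    have h2 := h.repr_eq_single q ⟨v q, Submodule.subset_span ⟨q, rfl⟩⟩ rfl
    have h3 : (Finsupp.linearCombination F t) (h.repr ⟨v q, Submodule.subset_span ⟨q, rfl⟩⟩) =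
        (Finsupp.linearCombination F t) (Finsupp.single q 1) := by rw [h2]
    refine h3.trans ?_
    rw [Finsupp.linearCombination_single, one_smul]
  refine ⟨fun s => φ (Pi.single s 1), fun q => ?_⟩
  rw [← hφ q]
  conv_rhs => rw [← Finset.univ_sum_single (v q), map_sum]
  refine Finset.sum_congr rfl fun s _ => ?_
  have : (Pi.single s (v q s) : Fin n → F) = v q s • Pi.single s 1 := by
    rw [← Pi.single_smul, smul_eq_mul, mul_one]
  rw [this, map_smul, smul_eq_mul, mul_comm]

lemma sum_restr {r : ℕ} {M : Type*} [AddCommMonoid M] (j : ℕ) (h : Fin (r + 1) → M)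
    (h0 : ∀ l, ¬ l.val < j → h l = 0) : ∑ l, h l = ∑ l : {l : Fin (r + 1) // l.val < j}, h l := by
  classical
  rw [← Fintype.sum_subtype_add_sum_subtype (fun l : Fin (r + 1) => l.val < j) h]
  have : ∑ l : {l : Fin (r + 1) // ¬ l.val < j}, h l = 0 :=
    Finset.sum_eq_zero fun l _ => h0 l l.2
  rw [this, add_zero]

lemma prod_restr {r : ℕ} {M : Type*} [CommMonoid M] (j : ℕ) (h : Fin (r + 1) → M)
    (h0 : ∀ l, ¬ l.val < j → h l = 1) : ∏ l, h l = ∏ l : {l : Fin (r + 1) // l.val < j}, h l := by
  classical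
  rw [← Fintype.prod_subtype_mul_prod_subtype (fun l : Fin (r + 1) => l.val < j) h]
  have : ∏ l : {l : Fin (r + 1) // ¬ l.val < j}, h l = 1 :=
    Finset.prod_eq_one fun l _ => h0 l l.2
  rw [this, mul_one]

end aux

section tower

variable {k : Type u} [Field k] {p : ℕ} [Fact p.Prime] [CharP k p] {n r : ℕ}

/-- The data of a tower of sums of monomials. -/
structure TowerData (k : Type u) [Field k] (p n r : ℕ) where
  /-- the indices of the monomials -/
  ι : Fin (r + 1) → Type
  fin : ∀ j, Fintype (ι j)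
  /-- the first monomial -/
  i0 : ∀ j, ι j
  /-- the coefficients -/
  c : ∀ j, ι j → k
  /-- the exponents of the coordinates -/
  a : ∀ j, ι j → Fin n → ℕ
  /-- the exponents of the polynomials -/
  e : ∀ j, ι j → Fin (r + 1) → ℕ
  /-- the polynomials -/
  f : Fin (r + 1) → MvPolynomial (Fin n) k
  /-- the degrees of the polynomials -/
  deg : Fin (r + 1) → Fin n → ZMod p

namespace TowerData

variable (S : TowerData k p n r)

instance (j : Fin (r + 1)) : Fintype (S.ι j) := S.fin j

/-- The monomials. -/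
noncomputable def m (j : Fin (r + 1)) (i : S.ι j) : MvPolynomial (Fin n) k :=
  (∏ s, X s ^ S.a j i s) * ∏ l, S.f l ^ S.e j i l

/-- The degrees of the monomials. -/
def w (j : Fin (r + 1)) (i : S.ι j) (s : Fin n) : ZMod p :=
  S.a j i s + ∑ l, S.e j i l * S.deg l s

/-- The differences of the degrees. -/
def v (q : Σ j, {i : S.ι j // i ≠ S.i0 j}) (s : Fin n) : ZMod p :=
  S.w q.1 q.2 s - S.deg q.1 s

/-- The conditions. -/
structure Ok : Prop where
  c0 : ∀ j i, S.c j i ≠ 0
  e0 : ∀ j i l, j ≤ l → S.e j i l = 0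
  hf : ∀ j, S.f j = ∑ i, C (S.c j i) * S.m j i
  hdeg : ∀ j s, S.deg j s = S.w j (S.i0 j) s
  ind : LinearIndependent (ZMod p) S.v
  prime : Prime (S.f (Fin.last r))
  ndvd : ¬ S.f (Fin.last r) ∣ (∏ s, X s) * ∏ l : Fin r, S.f l.castSucc

variable {S} (hS : S.Ok)

/-- The pairing. -/
def pr (b : Fin n → ZMod p) (v : Fin n → ZMod p) : ZMod p := ∑ s, b s * v s

/-- The functions of a stage. -/
noncomputable def gj (S : TowerData k p n r) (j : ℕ) :
    Fin n ⊕ {l : Fin (r + 1) // l.val < j} → KK k n :=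
  Sum.elim xx fun l => em k n (S.f l)

/-- The logarithmic derivations of a stage. -/
def Dj (S : TowerData k p n r) (j : ℕ) : Set (Derivation k (KK k n) (KK k n)) :=
  {D | ∃ b : Fin n → ZMod p, LogDer (fun s => ZMod.castHom (dvd_refl p) k (b s)) D ∧
    ∀ q, q.1.val < j → pr b (S.v q) = 0}

/-- The exponents of a stage. -/
def ej (S : TowerData k p n r) (j : Fin (r + 1)) (i : S.ι j) :
    Fin n ⊕ {l : Fin (r + 1) // l.val < j.val} → ℤ :=
  Sum.elim (fun s => S.a j i s) fun l => S.e j i l

lemma pr_add_sub (b : Fin n → ZMod p) (q : Σ j, {i : S.ι j // i ≠ S.i0 j}) :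
    pr b (S.w q.1 q.2) = pr b (S.deg q.1) + pr b (S.v q) := by
  unfold pr
  rw [← Finset.sum_add_distrib]
  refine Finset.sum_congr rfl fun s _ => ?_
  rw [v]; ring

lemma pr_w' (b : Fin n → ZMod p) (j : Fin (r + 1)) (i : S.ι j) :
    pr b (S.w j i) = ∑ s, (S.a j i s : ZMod p) * b s + ∑ l, (S.e j i l : ZMod p) *
      pr b (S.deg l) := by
  unfold pr w
  have h1 : ∑ l, (S.e j i l : ZMod p) * ∑ s, b s * S.deg l s =
      ∑ s, b s * ∑ l, (S.e j i l : ZMod p) * S.deg l s := by
    simp only [Finset.mul_sum]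
    rw [Finset.sum_comm]
    refine Finset.sum_congr rfl fun s _ => Finset.sum_congr rfl fun l _ => ?_
    ring
  rw [h1, ← Finset.sum_add_distrib]
  refine Finset.sum_congr rfl fun s _ => ?_
  ring

include hS

lemma em_m (j : Fin (r + 1)) (i : S.ι j) : em k n (S.m j i) = ∏ b, gj S j b ^ ej S j i b := by
  rw [m, map_mul, map_prod, map_prod, Fintype.prod_sum_type]
  congr 1
  · refine Finset.prod_congr rfl fun s _ => ?_
    simp only [gj, ej, Sum.elim_inl, zpow_natCast, map_pow]
    rfl
  · rw [prod_restr j.val _ (fun l hl => by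
      rw [hS.e0 j i l (by rw [Fin.le_def]; omega), pow_zero, map_one])]
    refine Finset.prod_congr rfl fun l _ => ?_
    simp only [gj, ej, Sum.elim_inr, zpow_natCast, map_pow]

lemma em_f (j : Fin (r + 1)) : em k n (S.f j) = ∑ i, S.c j i • ∏ b, gj S j b ^ ej S j i b := by
  conv_lhs => rw [hS.hf j]
  rw [map_sum]
  refine Finset.sum_congr rfl fun i _ => ?_
  rw [← em_m hS, map_mul, Algebra.smul_def]
  congr 1

lemma f_ne_zero (hlast : S.f (Fin.last r) ≠ 0) (j : Fin (r + 1)) : S.f j ≠ 0 := by
  rcases Fin.eq_castSucc_or_eq_last j with ⟨l, rfl⟩ | rfl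
  · intro h
    apply hS.ndvd
    rw [Finset.prod_eq_zero (Finset.mem_univ l) h, mul_zero]
    exact dvd_zero _
  · exact hlast

lemma pr_w (b : Fin n → ZMod p) (j : Fin (r + 1)) (h : ∀ q, q.1 = j → pr b (S.v q) = 0)
    (i : S.ι j) : pr b (S.w j i) = pr b (S.deg j) := by
  by_cases hi : i = S.i0 j
  · unfold pr
    rw [hi]
    exact Finset.sum_congr rfl fun s _ => by rw [hS.hdeg]
  · have h1 := pr_add_sub b ⟨j, i, hi⟩
    rw [h ⟨j, i, hi⟩ rfl, add_zero] at h1
    exact h1

/-- The weights of the polynomials and the monomials. -/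
lemma weights (b : Fin n → ZMod p) (D : Derivation k (KK k n) (KK k n))
    (hD : LogDer (fun s => ZMod.castHom (dvd_refl p) k (b s)) D) :
    ∀ (N : ℕ) (j : Fin (r + 1)), j.val = N → (∀ q, q.1 < j → pr b (S.v q) = 0) →
      (∀ i, D (em k n (S.m j i)) = ZMod.castHom (dvd_refl p) k (pr b (S.w j i)) •
        em k n (S.m j i)) ∧
      ((∀ q, q.1 = j → pr b (S.v q) = 0) → D (em k n (S.f j)) =
        ZMod.castHom (dvd_refl p) k (pr b (S.deg j)) • em k n (S.f j)) := by
  intro N
  induction N using Nat.strong_induction_on with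
  | _ N ih =>
    intro j hj hq
    have hfl := f_ne_zero hS hS.prime.ne_zero
    have h1 : ∀ i, D (em k n (S.m j i)) = ZMod.castHom (dvd_refl p) k (pr b (S.w j i)) •
        em k n (S.m j i) := by
      intro i
      rw [em_m hS]
      have hne : ∀ b, gj S j b ≠ 0 := by
        rintro (s | l)
        · exact xx_ne s
        · exact fun h => hfl l ((map_eq_zero_iff _ (em_inj k n)).1 h)
      rw [der_mono D Finset.univ (gj S j) hne
        (Sum.elim (fun s => ZMod.castHom (dvd_refl p) k (b s))
          fun l => ZMod.castHom (dvd_refl p) k (pr b (S.deg l))) ?_]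
      · congr 1
        rw [Fintype.sum_sum_type, pr_w', map_add, map_sum, map_sum]
        congr 1
        · refine Finset.sum_congr rfl fun s _ => ?_
          simp [ej]
        · rw [sum_restr j.val (fun l => ZMod.castHom (dvd_refl p) k
            ((S.e j i l : ZMod p) * pr b (S.deg l))) (fun l hl => by
              rw [hS.e0 j i l (by rw [Fin.le_def]; omega)]
              simp)]
          refine Finset.sum_congr rfl fun l _ => ?_
          simp [ej]
      · rintro (s | l)
        · exact hD.2 s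
        · refine (ih l.1.val (by rw [← hj]; exact l.2) l.1 rfl ?_).2 ?_
          · intro q hq'
            exact hq q (hq'.trans l.2)
          · intro q hq'
            exact hq q (by rw [hq']; exact l.2)
    refine ⟨h1, ?_⟩
    intro hq'
    rw [hS.hf j, map_sum, map_sum, Finset.smul_sum]
    refine Finset.sum_congr rfl fun i _ => ?_
    have e1 : em k n (C (S.c j i) * S.m j i) = S.c j i • em k n (S.m j i) := by
      rw [map_mul, Algebra.smul_def]
      congr 1
    rw [e1, D.map_smul, h1 i, pr_w hS b j hq' i, smul_comm]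

lemma gj_ne (j : ℕ) (b) : gj S j b ≠ 0 := by
  rcases b with s | l
  · exact xx_ne s
  · exact fun h => f_ne_zero hS hS.prime.ne_zero l
      ((map_eq_zero_iff _ (em_inj k n)).1 h)

/-- The separation of the monomials. -/
lemma sep_j (j : Fin (r + 1)) (i : S.ι j) : ∃ D ∈ Dj S j.val, ∃ l : k,
    D (∏ b, gj S j b ^ ej S j i b) = (l + 1) • ∏ b, gj S j b ^ ej S j i b ∧
      ∀ i', i' ≠ i → D (∏ b, gj S j b ^ ej S j i' b) = l • ∏ b, gj S j b ^ ej S j i' b := by
  classical
  -- the target values
  let t : (Σ j, {i : S.ι j // i ≠ S.i0 j}) → ZMod p := fun q =>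
    if q.1 = j then (if i = S.i0 j then -1 else if HEq q.2.1 i then 1 else 0) else 0
  obtain ⟨b, hb⟩ := exists_dual hS.ind t
  obtain ⟨D, hD⟩ := exists_logDer (n := n) (fun s => ZMod.castHom (dvd_refl p) k (b s))
  have hb' : ∀ q, pr b (S.v q) = t q := hb
  have hlt : ∀ q : (Σ j, {i : S.ι j // i ≠ S.i0 j}), q.1 < j → pr b (S.v q) = 0 := by
    intro q hq
    rw [hb']
    exact if_neg hq.ne
  have hw := (weights hS b D hD j.val j rfl hlt).1
  refine ⟨D, ⟨b, hD, hlt⟩, ?_⟩
  have hval : ∀ i', i' ≠ S.i0 j → pr b (S.w j i') = pr b (S.deg j) +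
      (if i = S.i0 j then -1 else if i' = i then 1 else 0) := by
    intro i' hi'
    have h1 := pr_add_sub b ⟨j, i', hi'⟩
    rw [hb'] at h1
    refine h1.trans ?_
    congr 1
    simp only [t, if_true]
    by_cases h2 : i = S.i0 j
    · rw [if_pos h2, if_pos h2]
    · rw [if_neg h2, if_neg h2]
      by_cases h3 : i' = i
      · rw [if_pos (heq_of_eq h3), if_pos h3]
      · rw [if_neg (fun h => h3 (eq_of_heq h)), if_neg h3]
  have hval0 : pr b (S.w j (S.i0 j)) = pr b (S.deg j) := by
    unfold pr
    exact Finset.sum_congr rfl fun s _ => by rw [hS.hdeg]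
  simp only [← em_m hS]
  by_cases hi : i = S.i0 j
  · refine ⟨ZMod.castHom (dvd_refl p) k (pr b (S.deg j)) - 1, ?_, ?_⟩
    · rw [hw, hi, hval0, sub_add_cancel]
    · intro i' hi'
      rw [hw, hval i' (by rw [← hi]; exact hi'), if_pos hi, map_add, map_neg, map_one,
        sub_eq_add_neg]
  · refine ⟨ZMod.castHom (dvd_refl p) k (pr b (S.deg j)), ?_, ?_⟩
    · rw [hw, hval i hi, if_neg hi, if_pos rfl, map_add, map_one]
    · intro i' hi'
      by_cases h0 : i' = S.i0 j
      · rw [hw, h0, hval0]
      · rw [hw, hval i' h0, if_neg hi, if_neg hi', add_zero]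

lemma hχ_j (j : Fin (r + 1)) : ∀ D ∈ Dj S j.val, ∀ b, ∃ χ : k, D (gj S j b) = χ • gj S j b := by
  rintro D ⟨b, hD, hb⟩ (s | l)
  · exact ⟨_, hD.2 s⟩
  · refine ⟨_, (weights hS b D hD l.1.val l.1 rfl ?_).2 ?_⟩
    · intro q hq
      exact hb q (hq.trans l.2)
    · intro q hq
      exact hb q (by rw [hq]; exact l.2)

theorem stage_j : ∀ j : ℕ, j ≤ r → Stage (RR k n) (RR k n) (gj S j) (Dj S j) := by
  intro j
  induction j with
  | zero =>
    intro _
    have h0 : IsEmpty {l : Fin (r + 1) // l.val < 0} := ⟨fun l => absurd l.2 (by omega)⟩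
    have h1 := (stage_init (k := k) (n := n)).reindex
      (Equiv.sumEmpty (Fin n) {l : Fin (r + 1) // l.val < 0})
    have h2 : (fun a => xx ((Equiv.sumEmpty (Fin n) {l : Fin (r + 1) // l.val < 0}) a)) =
        gj S 0 := by
      funext a
      rcases a with s | l
      · rfl
      · exact absurd l.2 (by omega)
    rw [h2] at h1
    refine h1.mono ?_
    rintro D ⟨b, hD, -⟩
    exact ⟨_, hD⟩
  | succ j ih =>
    intro hj
    have hst := ih (by omega)
    let j' : Fin (r + 1) := ⟨j, by omega⟩
    have hne : Nonempty (S.ι j') := ⟨S.i0 j'⟩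
    have h1 := Stage.add hst (ej S j') (S.c j') (em k n (S.f j')) (hS.c0 j') (em_f hS j')
      (fun h => f_ne_zero hS hS.prime.ne_zero j' ((map_eq_zero_iff _ (em_inj k n)).1 h))
      (em_mem _) (em_mem _) (hχ_j hS j') (sep_j hS j')
    -- reindex
    let φ : Option (Fin n ⊕ {l : Fin (r + 1) // l.val < j}) →
        Fin n ⊕ {l : Fin (r + 1) // l.val < j + 1} := fun o =>
      o.elim (Sum.inr ⟨j', by change j < j + 1; omega⟩)
        (Sum.map id fun l => ⟨l.1, by have := l.2; omega⟩)
    have hφ : Function.Bijective φ := by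
      constructor
      · rintro (_ | s | l) (_ | s' | l') h
        · rfl
        · simp [φ] at h
        · simp only [φ, Option.elim, Sum.map_inr, Sum.inr.injEq, Subtype.mk.injEq] at h
          have h2 := l'.2
          rw [← h] at h2
          exact absurd h2 (by change ¬ j < j; omega)
        · simp [φ] at h
        · simpa [φ] using h
        · simp [φ] at h
        · simp only [φ, Option.elim, Sum.map_inr, Sum.inr.injEq, Subtype.mk.injEq] at h
          have h2 := l.2
          rw [h] at h2
          exact absurd h2 (by change ¬ j < j; omega)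
        · simp [φ] at h
        · simp only [φ, Option.elim, Sum.map_inr, Sum.inr.injEq, Subtype.mk.injEq] at h
          rw [Subtype.ext h]
      · rintro (s | l)
        · exact ⟨some (Sum.inl s), rfl⟩
        · by_cases h : l.1.val < j
          · exact ⟨some (Sum.inr ⟨l.1, h⟩), rfl⟩
          · refine ⟨none, ?_⟩
            have h2 := l.2
            simp only [φ, Option.elim]
            congr 1
            apply Subtype.ext
            apply Fin.ext
            change j = l.1.val
            omega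
    let E := (Equiv.ofBijective φ hφ).symm
    have h2 := h1.reindex E
    have h3 : (fun a => (fun o : Option (Fin n ⊕ {l : Fin (r + 1) // l.val < j'.val}) =>
        o.elim (em k n (S.f j')) (gj S j')) (E a)) = gj S (j + 1) := by
      funext a
      obtain ⟨o, rfl⟩ := hφ.2 a
      have h4 : E (φ o) = o := (Equiv.ofBijective φ hφ).symm_apply_apply o
      simp only [h4]
      rcases o with _ | s | l
      · rfl
      · rfl
      · rfl
    rw [h3] at h2
    refine h2.mono ?_
    rintro D ⟨b, hD, hb⟩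
    refine ⟨⟨b, hD, fun q hq => hb q (hq.trans (Nat.lt_succ_self j))⟩, _,
      (weights hS b D hD j j' rfl ?_).2 ?_⟩
    · intro q hq
      have : q.1.val < j := hq
      exact hb q (by omega)
    · intro q hq
      exact hb q (by rw [hq]; exact Nat.lt_succ_self j)

theorem hasResolution_tower :
    IsDomain (MvPolynomial (Fin n) k ⧸ Ideal.span {S.f (Fin.last r)}) ∧
    HasResolution (X := Spec (CommRingCat.of
      (MvPolynomial (Fin n) k ⧸ Ideal.span {S.f (Fin.last r)})))
      (Spec.map (CommRingCat.ofHom (algebraMap k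
        (MvPolynomial (Fin n) k ⧸ Ideal.span {S.f (Fin.last r)})))) := by
  have hdom : IsDomain (MvPolynomial (Fin n) k ⧸ Ideal.span {S.f (Fin.last r)}) := by
    rw [Ideal.Quotient.isDomain_iff_prime]
    exact (Ideal.span_singleton_prime hS.prime.ne_zero).2 hS.prime
  refine ⟨hdom, ?_⟩
  have hN : IsNoetherianRing (RR k n) :=
    isNoetherianRing_of_ringEquiv (MvPolynomial (Fin n) k) (eR k n).toRingEquiv
  have hne : Nonempty (S.ι (Fin.last r)) := ⟨S.i0 _⟩
  have hst := stage_j hS r le_rfl
  have hdvd : ∀ a b : MvPolynomial (Fin n) k, (⟨em k n a, em_mem a⟩ : RR k n) ∣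
      ⟨em k n b, em_mem b⟩ ↔ a ∣ b := by
    intro a b
    constructor
    · rintro ⟨⟨_, c, rfl⟩, h⟩
      refine ⟨c, em_inj k n ?_⟩
      rw [map_mul]
      exact congrArg Subtype.val h
    · rintro ⟨c, rfl⟩
      exact ⟨⟨em k n c, em_mem c⟩, Subtype.ext (map_mul _ _ _)⟩
  refine Stage.hasResolution (R := RR k n) ?_ hst (ej S (Fin.last r)) (S.c (Fin.last r))
    ⟨em k n (S.f (Fin.last r)), em_mem _⟩ (hS.c0 _) (em_f hS _) (sep_j hS _) ?_ ?_
    ((Ideal.Quotient.mkₐ k _).comp (eR k n).symm.toAlgHom) ?_ ?_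
  · intro x
    obtain ⟨a, b, hb, rfl⟩ := IsFractionRing.div_surjective (A := MvPolynomial (Fin n) k) x
    have hb0 : em k n b ≠ 0 := fun h =>
      nonZeroDivisors.ne_zero hb ((map_eq_zero_iff _ (em_inj k n)).1 h)
    refine ⟨⟨em k n a, em_mem a⟩, ⟨em k n b, em_mem b⟩, fun h => hb0 (congrArg Subtype.val h),
      ?_⟩
    exact div_mul_cancel₀ _ hb0
  · have h1 := (MulEquiv.prime_iff (eR k n).toMulEquiv (p := S.f (Fin.last r))).2 hS.prime
    exact h1
  · intro h hd
    apply hS.ndvd
    rw [← hdvd]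
    convert hd using 1
    apply Subtype.ext
    change em k n _ = ∏ b, gj S r b
    rw [map_mul, map_prod, map_prod, Fintype.prod_sum_type]
    congr 1
    let h : Fin (r + 1) → KK k n := fun l => if l.val < r then em k n (S.f l) else 1
    have e1 := prod_restr r h (fun l hl => if_neg hl)
    rw [Fin.prod_univ_castSucc] at e1
    have e2 : h (Fin.last r) = 1 := if_neg (by simp)
    rw [e2, mul_one] at e1
    have e3 : ∀ l : Fin r, h l.castSucc = em k n (S.f l.castSucc) := fun l => if_pos l.2
    have e4 : ∀ l : {l : Fin (r + 1) // l.val < r}, h l = em k n (S.f l) := fun l => if_pos l.2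
    simp only [e3, e4] at e1
    exact e1
  · exact (Ideal.Quotient.mkₐ_surjective k _).comp (eR k n).symm.surjective
  · rintro ⟨_, b, rfl⟩
    have h1 : (eR k n).symm ⟨em k n b, em_mem b⟩ = b := by
      rw [AlgEquiv.symm_apply_eq]; rfl
    change (Ideal.Quotient.mk _ ((eR k n).symm ⟨em k n b, em_mem b⟩)) = 0 ↔ _
    rw [h1, Ideal.Quotient.eq_zero_iff_mem, Ideal.mem_span_singleton]
    exact (hdvd _ _).symm

end TowerData

end tower

end Pool.Agent.W558
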