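import Pool.Agent.H59.L.S8.W558.Extract

set_option autoImplicit false
set_option linter.unusedVariables false
set_option linter.unusedSectionVars false

universe u v

open AlgebraicGeometry CategoryTheory Pool.Agent.H920R2

namespace Pool.Agent.W558

section stage

variable {k K : Type u} [Field k] [Field K] [Algebra k K]

lemma Stage.mono {R0 R : Subalgebra k K} {G : Type} [Fintype G] {g : G → K}
    {Ds Ds' : Set (Derivation k K K)} (hst : Stage R0 R g Ds) (h : Ds' ⊆ Ds) :
    Stage R0 R g Ds' := by
  obtain ⟨T, I, i1, i2, i3, M, Γ, h1, h2, h3⟩ := hst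
  exact ⟨T, I, i1, i2, i3, M, Γ, h1, fun D hD => h2 D (h hD), h3⟩

lemma Stage.reindex {R0 R : Subalgebra k K} {G G' : Type} [Fintype G] [Fintype G'] {g : G → K}
    {Ds : Set (Derivation k K K)} (hst : Stage R0 R g Ds) (e : G' ≃ G) :
    Stage R0 R (fun a => g (e a)) Ds := by
  obtain ⟨T, I, i1, i2, i3, M, Γ, h1, h2, h3⟩ := hst
  refine ⟨T, I, i1, i2, i3, M, fun a => Γ (e a), fun a t => h1 (e a) t, h2, ?_⟩
  rw [Equiv.prod_comp e g]
  exact h3

/-- Resolution of hypersurfaces defined by sums of monomials on a stage. -/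
theorem Stage.hasResolution {R : Subalgebra k K} [IsNoetherianRing R]
    (hK : ∀ x : K, ∃ a b : R, b ≠ 0 ∧ x * b = a) {G : Type} [Fintype G] {g : G → K}
    {Ds : Set (Derivation k K K)} (hst : Stage R R g Ds) {ι : Type} [Fintype ι] [Nonempty ι]
    (e : ι → G → ℤ) (c : ι → k) (f : R) (hc : ∀ i, c i ≠ 0)
    (hf : (f : K) = ∑ i, c i • ∏ b, g b ^ e i b)
    (sep : ∀ i, ∃ D ∈ Ds, ∃ l : k, D (∏ b, g b ^ e i b) = (l + 1) • ∏ b, g b ^ e i b ∧
      ∀ j, j ≠ i → D (∏ b, g b ^ e j b) = l • ∏ b, g b ^ e j b)
    (hprime : Prime f) (hnd : ∀ h : ∏ b, g b ∈ R, ¬ f ∣ ⟨∏ b, g b, h⟩)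
    {A : Type u} [CommRing A] [IsDomain A] [Algebra k A]
    (q : R →ₐ[k] A) (hq : Function.Surjective q) (hker : ∀ r, q r = 0 ↔ f ∣ r) :
    HasResolution (X := Spec (CommRingCat.of A))
      (Spec.map (CommRingCat.ofHom (algebraMap k A))) := by
  classical
  obtain ⟨T, I, i1, i2, i3, M, Γ, hFn, hLD, hBd⟩ := hst
  let m : ι → K := fun i => ∏ b, g b ^ e i b
  let g' : G ⊕ ι → K := Sum.elim g m
  let Γ' : G ⊕ ι → I → ℤ := Sum.elim Γ fun i l => ∑ b, e i b * Γ b l
  have hFn' : Fn M g' Γ' := by
    rintro (b | i)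
    · exact hFn b
    · exact fn_mono hFn e i
  obtain ⟨T1, I1, j1, j2, j3, M1, Γ1, hE, hC⟩ := princ_all g' M Γ'
  have hFn1 := hE.fn hFn'
  have hf0 : (f : K) ≠ 0 := fun h => hprime.ne_zero (Subtype.ext h)
  have hAD : AddData M1 m (Γ1 ∘ Sum.inr) c (f : K) :=
    { fn := hFn1.comp Sum.inr
      cmp := fun a b => hC _ _
      c0 := hc
      hf := hf
      f0 := hf0
      sep := fun i => by
        obtain ⟨D, hD, l, h1, h2⟩ := sep i
        exact ⟨D, l, hE.ld D (hLD D hD), h1, h2⟩ }
  have hFF := fn_mono (hFn1.comp Sum.inl) (ι := Unit) (fun _ _ => 1)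
  have e1 : (fun _ : Unit => ∏ b, (g' ∘ Sum.inl) b ^ (1 : ℤ)) = fun _ : Unit => ∏ b, g b := by
    funext _
    exact Finset.prod_congr rfl fun b _ => zpow_one _
  rw [e1] at hFF
  have hBd1 := hE.bd _ hBd
  exact hasResolution_hyp hK M1 hFF hBd1 hAD f rfl hprime (hnd _) q hq hker

end stage

section frac

/-- Extension of derivations to the field of fractions. -/
theorem exists_der_frac {k A K : Type u} [Field k] [CommRing A] [IsDomain A] [Field K]
    [Algebra k A] [Algebra k K] [Algebra A K] [IsScalarTower k A K] [IsFractionRing A K]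
    (δ : Derivation k A A) :
    ∃ D : Derivation k K K, ∀ a, D (algebraMap A K a) = algebraMap A K (δ a) := by
  let ψ : A →+* TrivSqZeroExt K K :=
    { toFun := fun a => TrivSqZeroExt.inl (algebraMap A K a) +
        TrivSqZeroExt.inr (algebraMap A K (δ a))
      map_one' := by
        rw [map_one, δ.map_one_eq_zero, map_zero, TrivSqZeroExt.inr_zero, add_zero,
          TrivSqZeroExt.inl_one]
      map_mul' := by
        intro a b
        ext
        · simp
        · simp only [TrivSqZeroExt.snd_add, TrivSqZeroExt.snd_inl, TrivSqZeroExt.snd_inr,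
            TrivSqZeroExt.snd_mul, TrivSqZeroExt.fst_add, TrivSqZeroExt.fst_inl,
            TrivSqZeroExt.fst_inr, zero_add, add_zero, smul_eq_mul,
            MulOpposite.smul_eq_mul_unop, MulOpposite.unop_op, Derivation.leibniz, map_add,
            map_mul]
          ring
      map_zero' := by simp
      map_add' := by
        intro a b
        ext
        · simp
        · simp only [TrivSqZeroExt.snd_add, TrivSqZeroExt.snd_inl, TrivSqZeroExt.snd_inr,
            zero_add, map_add] }
  have hu : ∀ y : nonZeroDivisors A, IsUnit (ψ y) := by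
    intro y
    rw [TrivSqZeroExt.isUnit_iff_isUnit_fst]
    change IsUnit (TrivSqZeroExt.inl (algebraMap A K y) +
        TrivSqZeroExt.inr (algebraMap A K (δ y)) : TrivSqZeroExt K K).fst
    rw [TrivSqZeroExt.fst_add, TrivSqZeroExt.fst_inl, TrivSqZeroExt.fst_inr, add_zero,
      isUnit_iff_ne_zero]
    intro h0
    exact nonZeroDivisors.coe_ne_zero y ((FaithfulSMul.algebraMap_eq_zero_iff A K).1 h0)
  let Ψ : K →+* TrivSqZeroExt K K := IsLocalization.lift (M := nonZeroDivisors A) hu
  have hΨ : ∀ a, Ψ (algebraMap A K a) = ψ a := fun a => IsLocalization.lift_eq hu a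
  have hfst : ∀ x, (Ψ x).fst = x := by
    have h1 : (TrivSqZeroExt.fstHom K K K).toRingHom.comp Ψ = RingHom.id K := by
      apply IsLocalization.ringHom_ext (nonZeroDivisors A)
      apply RingHom.ext
      intro a
      change (Ψ (algebraMap A K a)).fst = algebraMap A K a
      rw [hΨ]
      change (TrivSqZeroExt.inl (algebraMap A K a) +
        TrivSqZeroExt.inr (algebraMap A K (δ a)) : TrivSqZeroExt K K).fst = _
      simp
    intro x
    exact congrArg (fun f : K →+* K => f x) h1
  have hsnd : ∀ a, (Ψ (algebraMap A K a)).snd = algebraMap A K (δ a) := by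
    intro a
    rw [hΨ]
    change (TrivSqZeroExt.inl (algebraMap A K a) +
        TrivSqZeroExt.inr (algebraMap A K (δ a)) : TrivSqZeroExt K K).snd = _
    rw [TrivSqZeroExt.snd_add, TrivSqZeroExt.snd_inl, TrivSqZeroExt.snd_inr, zero_add]
  have hk : ∀ r : k, (Ψ (algebraMap k K r)).snd = 0 := by
    intro r
    rw [IsScalarTower.algebraMap_apply k A K, hsnd, Derivation.map_algebraMap, map_zero]
  refine ⟨{ toFun := fun x => (Ψ x).snd
            map_add' := by intro x y; rw [map_add, TrivSqZeroExt.snd_add]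
            map_smul' := by
              intro r x
              rw [Algebra.smul_def, map_mul, TrivSqZeroExt.snd_mul, hk, hfst, RingHom.id_apply,
                Algebra.smul_def]
              simp [Algebra.smul_def]
            map_one_eq_zero' := by
              change (Ψ 1).snd = 0
              rw [map_one, TrivSqZeroExt.snd_one]
            leibniz' := by
              intro x y
              change (Ψ (x * y)).snd = x • (Ψ y).snd + y • (Ψ x).snd
              rw [map_mul, TrivSqZeroExt.snd_mul, hfst, hfst]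
              simp [mul_comm] }, hsnd⟩

end frac

end Pool.Agent.W558
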