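import Pool.Agent.H59.L.S8.W558.U1

set_option autoImplicit false
set_option linter.unusedVariables false
set_option linter.unusedSectionVars false

universe u v

open Polynomial

namespace Pool.Agent.W558

section der

variable {k A : Type u} [Field k] [CommRing A] [Algebra k A]

/-- Tangent vectors of smooth algebras are induced by derivations. -/
theorem exists_der [Algebra.Smooth k A] {κ : Type u} [Field κ] [Algebra k κ] (φ : A →ₐ[k] κ)
    (D : TV φ) {f : A} (hD : D.D f ≠ 0) : ∃ δ : Derivation k A A, φ (δ f) ≠ 0 := by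
  have hproj : Module.Projective A (Ω[A⁄k]) := inferInstance
  obtain ⟨s, hs⟩ := Module.projective_def.1 hproj
  let ω : Ω[A⁄k] := KaehlerDifferential.D k A f
  let _ : Algebra A κ := φ.toRingHom.toAlgebra
  have hst : IsScalarTower k A κ := IsScalarTower.of_algebraMap_eq fun r => (φ.commutes r).symm
  have hsm : ∀ (a : A) (x : κ), a • x = φ a * x := fun a x => rfl
  let D' : Derivation k A κ :=
    { toFun := D.D
      map_add' := D.D.map_add
      map_smul' := D.D.map_smul
      map_one_eq_zero' := D.D_one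
      leibniz' := by
        intro a b
        change D.D (a * b) = a • D.D b + b • D.D a
        rw [D.leib]
        rfl }
  by_contra hcon
  push Not at hcon
  apply hD
  have h1 : D.D f = D'.liftKaehlerDifferential ω := (D'.liftKaehlerDifferential_comp_D f).symm
  rw [h1, ← hs ω, Finsupp.linearCombination_apply, Finsupp.sum, map_sum]
  refine Finset.sum_eq_zero fun x _ => ?_
  rw [map_smul, hsm]
  have h2 := hcon (((Finsupp.lapply x : (Ω[A⁄k] →₀ A) →ₗ[A] A) ∘ₗ s).compDer
    (KaehlerDifferential.D k A))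
  have h3 : φ (s ω x) = 0 := h2
  rw [id, h3, zero_mul]

/-- Over perfect fields there are enough tangent vectors. -/
theorem exists_TV [PerfectField k] [Algebra.FiniteType k A] {κ' : Type u} [Field κ']
    [Algebra k κ'] (φ : A →ₐ[k] κ') (N : Ideal A) (hN : N ≤ RingHom.ker φ) {f : A}
    (hf : φ f = 0) (h : ∀ s, φ s ≠ 0 → s * f ∉ RingHom.ker φ ^ 2 ⊔ N) :
    ∃ D : TV φ, D.D f ≠ 0 ∧ ∀ x ∈ N, D.D x = 0 := by
  let q : Ideal A := RingHom.ker φ
  have hq : q.IsPrime := RingHom.ker_isPrime φ
  let B := Localization.AtPrime q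
  let J : Ideal B := (q ^ 2 ⊔ N).map (algebraMap A B)
  have hm : IsLocalRing.maximalIdeal B = q.map (algebraMap A B) :=
    (IsLocalization.AtPrime.map_eq_maximalIdeal q B).symm
  have hJm : J ≤ IsLocalRing.maximalIdeal B := by
    rw [hm]
    refine Ideal.map_mono (sup_le ?_ hN)
    exact Ideal.pow_le_self two_ne_zero
  let κ := q.ResidueField
  let res : B →ₐ[k] κ := IsScalarTower.toAlgHom k B κ
  have hres : Function.Surjective res := IsLocalRing.residue_surjective
  have hresk : ∀ b, res b = 0 ↔ b ∈ IsLocalRing.maximalIdeal B := fun b =>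
    IsLocalRing.residue_eq_zero_iff b
  let g : (B ⧸ J) →ₐ[k] κ := Ideal.Quotient.liftₐ J res fun b hb => (hresk b).2 (hJm hb)
  have hg : ∀ b, g (Ideal.Quotient.mk J b) = res b := fun b => rfl
  have hgs : Function.Surjective g := by
    intro x
    obtain ⟨b, rfl⟩ := hres x
    exact ⟨Ideal.Quotient.mk J b, rfl⟩
  have hker : ∀ x y, g x = 0 → g y = 0 → x * y = 0 := by
    intro x y hx hy
    obtain ⟨a, rfl⟩ := Ideal.Quotient.mk_surjective x
    obtain ⟨b, rfl⟩ := Ideal.Quotient.mk_surjective y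
    rw [hg, hresk] at hx hy
    rw [← map_mul, Ideal.Quotient.eq_zero_iff_mem]
    have : a * b ∈ (q.map (algebraMap A B)) ^ 2 := by
      rw [← hm, pow_two]
      exact Ideal.mul_mem_mul hx hy
    rw [← Ideal.map_pow] at this
    exact Ideal.map_mono le_sup_left this
  have hnil : IsNilpotent (RingHom.ker (g : (B ⧸ J) →+* κ)) := by
    have h2 : RingHom.ker (g : (B ⧸ J) →+* κ) * RingHom.ker (g : (B ⧸ J) →+* κ) = ⊥ := by
      rw [eq_bot_iff, Ideal.mul_le]
      intro x hx y hy
      rw [hker x y hx hy]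
      exact Ideal.zero_mem _
    exact ⟨2, (sq (RingHom.ker (g : (B ⧸ J) →+* κ))).trans h2⟩
  have hess : Algebra.EssFiniteType k κ := Algebra.EssFiniteType.comp k A κ
  have hfs : Algebra.FormallySmooth k κ := Algebra.FormallySmooth.of_perfectField
  let σ : κ →ₐ[k] (B ⧸ J) := Algebra.FormallySmooth.liftOfSurjective (AlgHom.id k κ) g hgs hnil
  have hσ : ∀ x, g (σ x) = x := fun x =>
    Algebra.FormallySmooth.liftOfSurjective_apply (AlgHom.id k κ) g hgs hnil x
  let _ : Algebra κ (B ⧸ J) := σ.toRingHom.toAlgebra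
  have hst : IsScalarTower k κ (B ⧸ J) :=
    IsScalarTower.of_algebraMap_eq fun r => (σ.commutes r).symm
  let F : B ⧸ J := Ideal.Quotient.mk J (algebraMap A B f)
  have hF : F ≠ 0 := by
    intro h0
    rw [Ideal.Quotient.eq_zero_iff_mem,
      IsLocalization.algebraMap_mem_map_algebraMap_iff q.primeCompl] at h0
    obtain ⟨s, hs, h1⟩ := h0
    exact h s hs h1
  obtain ⟨l, hl⟩ : ∃ l : (B ⧸ J) →ₗ[κ] κ, l F ≠ 0 := by
    by_contra hcon
    push Not at hcon
    exact hF ((Module.forall_dual_apply_eq_zero_iff κ F).1 hcon)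
  let π : A →ₐ[k] (B ⧸ J) := (Ideal.Quotient.mkₐ k J).comp (IsScalarTower.toAlgHom k A B)
  let ρ : A →ₐ[k] κ := g.comp π
  have hσm : ∀ x y, σ x * y = x • y := fun x y => rfl
  have hρ0 : ∀ a, ρ a = 0 ↔ φ a = 0 := by
    intro a
    change algebraMap A κ a = 0 ↔ _
    rw [Ideal.algebraMap_residueField_eq_zero]
    exact RingHom.mem_ker
  let j : κ →ₐ[k] κ' := Ideal.ResidueField.liftₐ q φ le_rfl (by
    intro s hs
    exact isUnit_iff_ne_zero.2 hs)
  have hj : ∀ a, j (ρ a) = φ a := fun a => Ideal.ResidueField.liftₐ_algebraMap q φ _ _ a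
  have hD0 : ∀ a, g (π a - σ (ρ a)) = 0 := by
    intro a
    rw [map_sub, hσ]
    exact sub_self _
  let D0 : A →ₗ[k] κ :=
    { toFun := fun a => l (π a - σ (ρ a))
      map_add' := by
        intro a b
        rw [← map_add l]
        congr 1
        rw [map_add, map_add, map_add]
        abel
      map_smul' := by
        intro r a
        have e : r • l (π a - σ (ρ a)) = l (r • (π a - σ (ρ a))) := by
          rw [← algebraMap_smul κ r (π a - σ (ρ a)), l.map_smul, algebraMap_smul]
        rw [RingHom.id_apply, e]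
        congr 1
        rw [map_smul, map_smul, map_smul, smul_sub] }
  have hleib : ∀ a b, D0 (a * b) = ρ a * D0 b + ρ b * D0 a := by
    intro a b
    change l (π (a * b) - σ (ρ (a * b))) = ρ a • l (π b - σ (ρ b)) + ρ b • l (π a - σ (ρ a))
    rw [← l.map_smul, ← l.map_smul, ← l.map_add]
    congr 1
    rw [← hσm, ← hσm, map_mul, map_mul, map_mul]
    have h0 := hker _ _ (hD0 a) (hD0 b)
    linear_combination h0
  have hN0 : ∀ x ∈ N, D0 x = 0 := by
    intro x hx
    change l (π x - σ (ρ x)) = 0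
    have h1 : π x = 0 := by
      change Ideal.Quotient.mk J (algebraMap A B x) = 0
      rw [Ideal.Quotient.eq_zero_iff_mem]
      exact Ideal.mem_map_of_mem _ (Ideal.mem_sup_right hx)
    have h2 : ρ x = 0 := (hρ0 x).2 (hN hx)
    rw [h1, h2, map_zero, sub_zero, map_zero]
  refine ⟨{ D := j.toLinearMap ∘ₗ D0, leib := ?_ }, ?_, ?_⟩
  · intro a b
    change j (D0 (a * b)) = φ a * j (D0 b) + φ b * j (D0 a)
    rw [hleib, map_add, map_mul, map_mul, hj, hj]
  · change j (D0 f) ≠ 0
    intro h0
    have h1 : D0 f = 0 := (map_eq_zero j).1 h0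
    apply hl
    have h2 : ρ f = 0 := (hρ0 f).2 hf
    change l (π f - σ (ρ f)) = 0 at h1
    rwa [h2, map_zero, sub_zero] at h1
  · intro x hx
    change j (D0 x) = 0
    rw [hN0 x hx, map_zero]

end der

end Pool.Agent.W558
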