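import Pool.Agent.H59.L.S8.H920R2.Up1

set_option autoImplicit false

open AlgebraicGeometry CategoryTheory TopologicalSpace Pool.Agent.H920R2

universe u v w

namespace Pool.Agent.W558

/-- An atlas of smooth charts for a modification of `Spec A`. -/
structure Atl {k A : Type u} [Field k] [CommRing A] [Algebra k A] {L : Type u} [Field L]
    [Algebra k L] (g : A →ₐ[k] L) {T : Type} (C : T → Subalgebra k L) (H : T → L) : Prop where
  sm : ∀ t, Algebra.Smooth k (C t)
  aa : ∀ t a, g a ∈ C t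
  H0 : ∀ t, H t ≠ 0
  hA : ∀ t, ∃ b, H t = g b
  rt : ∀ t t', H t' / H t ∈ C t
  gl : ∀ t t', ∀ x ∈ C t', ∃ n : ℕ, (H t' / H t) ^ n * x ∈ C t
  dn : ∀ t, ∀ x ∈ C t, ∃ (n : ℕ) (a : A), H t ^ n * x = g a
  cv : ∀ V : ValuationSubring L, (∀ a, g a ∈ V) → ∃ t, ∀ x ∈ C t, x ∈ V

theorem hasResolution_of_atl {k A : Type u} [Field k] [CommRing A] [IsDomain A] [Algebra k A]
    {L : Type u} [Field L] [Algebra k L] (g : A →ₐ[k] L) (hg : Function.Injective g) {T : Type}
    [Finite T] {C : T → Subalgebra k L} {H : T → L} (h : Atl g C H) :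
    HasResolution (X := Spec (CommRingCat.of A))
      (Spec.map (CommRingCat.ofHom (algebraMap k A))) := by
  classical
  have : Fintype T := Fintype.ofFinite T
  have hfg : ∀ t, ∃ G : Finset L, Algebra.adjoin k (G : Set L) = C t := by
    intro t
    have h1 := h.sm t
    have h2 : Algebra.FiniteType k (C t) := inferInstance
    obtain ⟨G, hG⟩ := (Subalgebra.fg_iff_finiteType _).2 h2
    exact ⟨G, hG⟩
  choose G hG using hfg
  have hGm : ∀ t, ∀ x ∈ G t, x ∈ C t := by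
    intro t x hx
    rw [← hG t]; exact Algebra.subset_adjoin hx
  choose b hb using h.hA
  have h1 : ∀ p : (Σ t, {x // x ∈ G t}), ∃ n : ℕ, (∃ a, H p.1 ^ n * p.2.1 = g a) ∧
      ∀ t, (H p.1 / H t) ^ n * p.2.1 ∈ C t := by
    rintro ⟨t, x, hx⟩
    obtain ⟨n, a, ha⟩ := h.dn t x (hGm t x hx)
    choose m hm' using fun t' => h.gl t' t _ (hGm t x hx)
    refine ⟨n + Finset.univ.sup m, ⟨b t ^ (Finset.univ.sup m) * a, ?_⟩, ?_⟩
    · rw [map_mul, map_pow, ← ha, ← hb]; ring
    · intro t'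
      have h2 : m t' ≤ Finset.univ.sup m := Finset.le_sup (Finset.mem_univ t')
      obtain ⟨e, he⟩ := Nat.exists_eq_add_of_le h2
      have h3 : (H t / H t') ^ (n + Finset.univ.sup m) * x =
          (H t / H t') ^ (n + e) * ((H t / H t') ^ m t' * x) := by
        rw [he]
        ring
      rw [h3]
      exact (C t').mul_mem ((C t').pow_mem (h.rt t' t) _) (hm' t')
  choose N hN1 hN2 using h1
  let M : ℕ := Finset.univ.sup N
  have hNM : ∀ p, N p ≤ M := fun p => Finset.le_sup (Finset.mem_univ p)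
  have h2 : ∀ p : (Σ t, {x // x ∈ G t}), ∃ a, H p.1 ^ M * p.2.1 = g a := by
    intro p
    obtain ⟨a, ha⟩ := hN1 p
    obtain ⟨e, he⟩ := Nat.exists_eq_add_of_le (hNM p)
    refine ⟨b p.1 ^ e * a, ?_⟩
    rw [map_mul, map_pow, ← ha, ← hb, he]; ring
  choose a ha using h2
  let z : T ⊕ (Σ t, {x // x ∈ G t}) → A := Sum.elim (fun t => b t ^ M) a
  have e0 : ∀ t, g (z (Sum.inl t)) = H t ^ M := by
    intro t
    change g (b t ^ M) = _
    rw [map_pow, ← hb]
  have hz : ∀ t i, g (z i) / g (z (Sum.inl t)) ∈ C t := by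
    intro t i
    rw [e0]
    rcases i with t' | p
    · rw [e0, ← div_pow]
      exact (C t).pow_mem (h.rt t t') M
    · have e1 : g (z (Sum.inr p)) = H p.1 ^ M * p.2.1 := (ha p).symm
      obtain ⟨e, he⟩ := Nat.exists_eq_add_of_le (hNM p)
      have e2 : H p.1 ^ M * p.2.1 / H t ^ M =
          (H p.1 / H t) ^ e * ((H p.1 / H t) ^ N p * p.2.1) := by
        rw [he]
        rw [← mul_assoc, ← pow_add, div_pow, add_comm]
        ring
      rw [e1, e2]
      exact (C t).mul_mem ((C t).pow_mem (h.rt t p.1) _) (hN2 p t)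
  have hz0 : ∀ t, z (Sum.inl t) ≠ 0 := by
    intro t h0
    have e1 := e0 t
    rw [h0, map_zero] at e1
    exact pow_ne_zero M (h.H0 t) e1.symm
  refine hasResolution_of_charts' g hg z (Set.range Sum.inl) ?_ ?_
  · intro V hV
    obtain ⟨t, ht⟩ := h.cv V hV
    exact ⟨Sum.inl t, ⟨t, rfl⟩, hz0 t, fun i => ht _ (hz t i)⟩
  · rintro _ ⟨t, rfl⟩ -
    refine ⟨C t, h.sm t, fun a => h.aa t a, fun i => hz t i, ?_⟩
    rw [← hG t, Algebra.adjoin_le_iff]
    intro x hx
    apply Algebra.subset_adjoin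
    right
    refine ⟨Sum.inr ⟨t, x, hx⟩, ?_⟩
    have e1 : g (z (Sum.inr ⟨t, x, hx⟩)) = H t ^ M * x := (ha ⟨t, x, hx⟩).symm
    change g (z (Sum.inr ⟨t, x, hx⟩)) / g (z (Sum.inl t)) = x
    rw [e0, e1]
    have := pow_ne_zero M (h.H0 t)
    field_simp

end Pool.Agent.W558
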