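import Pool.Agent.H59.L.S8.W558.Red

set_option autoImplicit false
set_option linter.unusedVariables false

universe u v

open Polynomial

namespace Pool.Agent.W558

section adj

variable {k K : Type u} [Field k] [Field K] [Algebra k K]

/-- The evaluation of polynomials with coefficients in a subalgebra. -/
noncomputable def evA (A : Subalgebra k K) (v : K) : (A)[X] →ₐ[k] K :=
  (Polynomial.aeval v : (A)[X] →ₐ[A] K).restrictScalars k

lemma evA_C (A : Subalgebra k K) (v : K) (a : A) : evA A v (C a) = a := by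
  change Polynomial.aeval v (C a) = _
  rw [Polynomial.aeval_C]
  rfl

lemma evA_X (A : Subalgebra k K) (v : K) : evA A v X = v := by
  change Polynomial.aeval v X = _
  rw [Polynomial.aeval_X]

/-- The subalgebra `A[v]`. -/
noncomputable def adj (A : Subalgebra k K) (v : K) : Subalgebra k K := (evA A v).range

lemma le_adj (A : Subalgebra k K) (v : K) : A ≤ adj A v := fun a ha =>
  ⟨C ⟨a, ha⟩, evA_C A v ⟨a, ha⟩⟩

lemma self_mem_adj (A : Subalgebra k K) (v : K) : v ∈ adj A v := ⟨X, evA_X A v⟩

lemma adj_induction (A : Subalgebra k K) (v : K) {p : K → Prop} (h0 : ∀ a ∈ A, p a)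
    (hadd : ∀ a b, p a → p b → p (a + b)) (hmul : ∀ a, p a → p (a * v)) :
    ∀ a ∈ adj A v, p a := by
  rintro _ ⟨P, rfl⟩
  have key : ∀ (n : ℕ) (a : A), p ((a : K) * v ^ n) := by
    intro n a
    induction n with
    | zero => rw [pow_zero, mul_one]; exact h0 _ a.2
    | succ n ih => rw [pow_succ, ← mul_assoc]; exact hmul _ ih
  change p (evA A v P)
  induction P using Polynomial.induction_on' with
  | add P Q hP hQ => rw [map_add]; exact hadd _ _ hP hQ
  | monomial n a =>
    rw [← Polynomial.C_mul_X_pow_eq_monomial, map_mul, map_pow, evA_C, evA_X]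
    exact key n a

lemma adj_le {A B : Subalgebra k K} {v : K} (hA : A ≤ B) (hv : v ∈ B) : adj A v ≤ B :=
  adj_induction A v (fun a ha => hA ha) (fun _ _ ha hb => B.add_mem ha hb)
    (fun _ ha => B.mul_mem ha hv)

/-- The surjection from the polynomials. -/
noncomputable def evA' (A : Subalgebra k K) (v : K) : (A)[X] →ₐ[k] adj A v :=
  (evA A v).rangeRestrict

lemma evA'_surj (A : Subalgebra k K) (v : K) : Function.Surjective (evA' A v) :=
  AlgHom.rangeRestrict_surjective _

lemma coe_evA' (A : Subalgebra k K) (v : K) (P : (A)[X]) :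
    (evA' A v P : K) = evA A v P := rfl

/-- The kernel of the evaluation at a quotient of transversal elements. -/
theorem mem_span_of_evA_eq_zero {A : Subalgebra k K} {x y : A} (hy0 : (y : K) ≠ 0)
    (hxy : ∀ b : A, y ∣ x * b → y ∣ b) :
    ∀ P : (A)[X], evA A (x / y) P = 0 → P ∈ Ideal.span {C y * X - C x} := by
  intro P
  induction hn : P.natDegree using Nat.strong_induction_on generalizing P with
  | _ n ih =>
  intro hP
  by_cases hn0 : n = 0
  · subst hn0
    have h1 : P = C (P.coeff 0) := Polynomial.eq_C_of_natDegree_eq_zero hn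
    rw [h1, evA_C] at hP
    have h2 : P.coeff 0 = 0 := Subtype.ext hP
    rw [h1, h2, C_0]
    exact Ideal.zero_mem _
  · -- the leading coefficient is divisible by `y`
    have hdiv : y ∣ P.coeff n := by
      have h1 : ∀ m : ℕ, y ∣ x ^ m * P.coeff n → y ∣ P.coeff n := by
        intro m
        induction m with
        | zero => intro h; rwa [pow_zero, one_mul] at h
        | succ m ihm =>
          intro h
          apply ihm
          apply hxy
          rwa [← mul_assoc, ← pow_succ']
      apply h1 n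
      have h2 : ((y : K)) ^ n * evA A (x / y) P = 0 := by rw [hP, mul_zero]
      have h3 : ∀ i, i ≤ n → (y : K) ^ n * ((P.coeff i : K) * (x / y) ^ i) =
          ((P.coeff i * x ^ i * y ^ (n - i) : A) : K) := by
        intro i hi
        have : (y : K) ^ n = (y : K) ^ i * (y : K) ^ (n - i) := by
          rw [← pow_add]; congr 1; omega
        push_cast
        rw [this, div_pow]
        field_simp
      have h4 : evA A (x / y) P = ∑ i ∈ Finset.range (n + 1), (P.coeff i : K) * (x / y) ^ i := by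
        change Polynomial.aeval _ P = _
        rw [Polynomial.aeval_eq_sum_range, hn]
        rfl
      rw [h4, Finset.mul_sum, Finset.sum_range_succ, h3 n le_rfl, Nat.sub_self, pow_zero,
        mul_one] at h2
      have h5 : ∑ i ∈ Finset.range n, (y : K) ^ n * ((P.coeff i : K) * (x / y) ^ i) =
          (y : K) * ((∑ i ∈ Finset.range n, P.coeff i * x ^ i * y ^ (n - i - 1) : A) : K) := by
        push_cast
        rw [Finset.mul_sum]
        refine Finset.sum_congr rfl fun i hi => ?_
        rw [Finset.mem_range] at hi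
        rw [h3 i hi.le]
        have : (y : K) ^ (n - i) = (y : K) ^ (n - i - 1) * y := by
          rw [← pow_succ]; congr 1; omega
        push_cast
        rw [this]; ring
      rw [h5] at h2
      refine ⟨-(∑ i ∈ Finset.range n, P.coeff i * x ^ i * y ^ (n - i - 1)), ?_⟩
      apply Subtype.ext
      push_cast at h2 ⊢
      linear_combination h2
    obtain ⟨c, hc⟩ := hdiv
    let f : (A)[X] := C y * X - C x
    let Q : (A)[X] := P - C c * X ^ (n - 1) * f
    have hf0 : evA A (x / y) f = 0 := by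
      simp only [f, map_sub, map_mul, evA_C, evA_X]
      field_simp
      simp
    have hQ0 : evA A (x / y) Q = 0 := by
      simp only [Q, map_sub, map_mul, hf0, mul_zero, sub_zero]
      exact hP
    have hPlead : P = C (P.coeff n) * X ^ n + P.eraseLead := by
      rw [add_comm, ← hn]
      exact (Polynomial.eraseLead_add_C_mul_X_pow P).symm
    have hX : (X : (A)[X]) ^ n = X ^ (n - 1) * X := by
      rw [← pow_succ]; congr 1; omega
    have hQ' : Q = P.eraseLead + C (c * x) * X ^ (n - 1) := by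
      simp only [Q, f]
      conv_lhs => rw [hPlead]
      rw [hc, hX, C_mul, C_mul]
      ring
    have hQdeg : Q.natDegree < n := by
      rw [hQ']
      refine lt_of_le_of_lt (Polynomial.natDegree_add_le _ _) ?_
      rw [max_lt_iff]
      constructor
      · have := Polynomial.eraseLead_natDegree_le P
        omega
      · have := Polynomial.natDegree_C_mul_X_pow_le (c * x) (n - 1)
        omega
    have h1 := ih Q.natDegree hQdeg Q rfl hQ0
    have h2 : P = Q + C c * X ^ (n - 1) * f := by simp only [Q]; ring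
    rw [h2]
    exact Ideal.add_mem _ h1 (Ideal.mul_mem_left _ _ (Ideal.mem_span_singleton_self _))

/-- Transversality of a pair. -/
structure Trans (A : Subalgebra k K) (x y : A) : Prop where
  y1 : ∀ (κ : Type u) [Field κ] [Algebra k κ] (φ : A →ₐ[k] κ), φ y = 0 →
    ∃ D : TV φ, D.D y ≠ 0
  xy : ∀ (κ : Type u) [Field κ] [Algebra k κ] (φ : A →ₐ[k] κ), φ x = 0 → φ y = 0 →
    ∃ D : TV φ, D.D x = 1 ∧ D.D y = 0

variable {A : Subalgebra k K} {x y : A}

lemma ker_evA' [Algebra.Smooth k A] (hy0 : (y : K) ≠ 0) (h : Trans A x y) :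
    RingHom.ker (evA' A (x / y)) = Ideal.span {C y * X - C x} := by
  apply le_antisymm
  · intro P hP
    refine mem_span_of_evA_eq_zero hy0 (fun b hb => dvd_of_dvd_mul x y h.y1 ?_ b hb) P ?_
    · intro κ _ _ φ hφy hφx
      obtain ⟨D, hD1, hD2⟩ := h.xy κ φ hφx hφy
      exact ⟨D, by rw [hD1]; exact one_ne_zero, hD2⟩
    · exact congrArg Subtype.val hP
  · rw [Ideal.span_singleton_le_iff_mem, RingHom.mem_ker]
    apply Subtype.ext
    rw [coe_evA']
    simp only [map_sub, map_mul, evA_C, evA_X]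
    change (y : K) * (x / y) - x = 0
    field_simp
    simp

lemma ker_evA'' [Algebra.Smooth k A] (hy0 : (y : K) ≠ 0) (h : Trans A x y) {P : (A)[X]}
    (hP : evA' A (x / y) P = 0) : P ∈ Ideal.span {C y * X - C x} := by
  rw [← ker_evA' hy0 h]
  exact hP

/-- The charts of the blowup are smooth. -/
theorem smooth_adj [Algebra.Smooth k A] (hy0 : (y : K) ≠ 0) (h : Trans A x y) :
    Algebra.Smooth k (adj A (x / y)) := by
  have h0 : Algebra.Smooth A ((A)[X]) := ⟨inferInstance, inferInstance⟩
  have h1 : Algebra.Smooth k ((A)[X]) := Algebra.Smooth.comp k A (A)[X]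
  have h2 : Algebra.Smooth k ((A)[X] ⧸ Ideal.span {C y * X - C x}) := by
    refine smooth_quot _ ?_
    intro κ _ _ φ hφ
    let φ0 : A →ₐ[k] κ := φ.comp (IsScalarTower.toAlgHom k A (A)[X])
    have hφ0 : ∀ a, φ (C a) = φ0 a := fun a => rfl
    have hφ' : φ0 y * φ X = φ0 x := by
      rw [map_sub, map_mul, hφ0, hφ0] at hφ
      exact sub_eq_zero.1 hφ
    by_cases hy : φ0 y = 0
    · have hx : φ0 x = 0 := by rw [← hφ', hy, zero_mul]
      obtain ⟨D, hD1, hD2⟩ := h.xy κ φ0 hx hy
      refine ⟨D.poly φ hφ0 0, ?_⟩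
      rw [map_sub, TV.leib, TV.poly_C, TV.poly_C, TV.poly_X, hD1, hD2]
      simp
    · refine ⟨(TV.zero φ0).poly φ hφ0 1, ?_⟩
      rw [map_sub, TV.leib, TV.poly_C, TV.poly_C, TV.poly_X, hφ0]
      simpa using hy
  have e1 : ((A)[X] ⧸ RingHom.ker (evA' A (x / y))) ≃ₐ[k] adj A (x / y) :=
    Ideal.quotientKerAlgEquivOfSurjective (evA'_surj A (x / y))
  have h3 : Algebra.Smooth k ((A)[X] ⧸ RingHom.ker (evA' A (x / y))) := by
    rw [ker_evA' hy0 h]
    exact h2
  exact Algebra.Smooth.of_equiv (A := (A)[X] ⧸ RingHom.ker (evA' A (x / y))) e1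

/-- Extension of tangent vectors to the charts of the blowup. -/
theorem TV.ext_adj [Algebra.Smooth k A] (hy0 : (y : K) ≠ 0) (h : Trans A x y) {κ : Type u}
    [Field κ] [Algebra k κ] (φ : adj A (x / y) →ₐ[k] κ) (φ0 : A →ₐ[k] κ)
    (hφ0 : ∀ a : A, φ ⟨a, le_adj A _ a.2⟩ = φ0 a) (D : TV φ0) (c : κ)
    (hc : φ0 y * c + φ ⟨x / y, self_mem_adj A _⟩ * D.D y = D.D x) :
    ∃ E : TV φ, (∀ a : A, E.D ⟨a, le_adj A _ a.2⟩ = D.D a) ∧
      E.D ⟨x / y, self_mem_adj A _⟩ = c := by
  have hC : ∀ a : A, evA' A (x / y) (C a) = ⟨a, le_adj A _ a.2⟩ := fun a =>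
    Subtype.ext (evA_C A _ a)
  have hX : evA' A (x / y) X = ⟨x / y, self_mem_adj A _⟩ := Subtype.ext (evA_X A _)
  let φ1 : (A)[X] →ₐ[k] κ := φ.comp (evA' A (x / y))
  have hφ1 : ∀ a, φ1 (C a) = φ0 a := by
    intro a
    change φ (evA' A (x / y) (C a)) = _
    rw [hC, hφ0]
  have hφX : φ1 X = φ ⟨x / y, self_mem_adj A _⟩ := by
    change φ (evA' A (x / y) X) = _
    rw [hX]
  have hv : (y : K) * (x / y) = x := by field_simp
  have hφf : φ1 (C y * X - C x) = 0 := by
    rw [map_sub, map_mul, hφ1, hφ1, hφX, ← hφ0, ← hφ0, ← map_mul, sub_eq_zero]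
    congr 1
    exact Subtype.ext hv
  obtain ⟨E, hE⟩ := TV.desc (evA' A (x / y)) (evA'_surj A _) φ (fun a => rfl)
    (D.poly φ1 hφ1 c) (by
      intro P hP
      refine TV.span_singleton _ hφf ?_ (ker_evA'' hy0 h hP)
      rw [map_sub, TV.leib, TV.poly_C, TV.poly_C, TV.poly_X, hφ1, hφX, ← hc]
      ring)
  refine ⟨E, ?_, ?_⟩
  · intro a
    rw [← hC, hE, TV.poly_C]
  · rw [← hX, hE, TV.poly_X]

end adj

end Pool.Agent.W558
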