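import Pool.Agent.H59.L.S8.W558.Place

set_option autoImplicit false
set_option linter.unusedVariables false
set_option linter.unusedSectionVars false

universe u v

open AlgebraicGeometry CategoryTheory Pool.Agent.H920R2

namespace Pool.Agent.W558

section res

variable {k K : Type u} [Field k] [Field K] [Algebra k K]

/-- Valuation rings are local. -/
theorem isLocalRing_of_total (O : Subalgebra k K) (hO : ∀ x : K, x ∈ O ∨ x⁻¹ ∈ O) :
    IsLocalRing O := by
  refine IsLocalRing.of_isUnit_or_isUnit_one_sub_self fun a => ?_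
  by_cases h0 : a = 0
  · right; rw [h0, sub_zero]; exact isUnit_one
  by_cases h1 : (1 : O) - a = 0
  · left
    rw [← sub_eq_zero.1 h1]; exact isUnit_one
  have h0' : (a : K) ≠ 0 := fun h => h0 (Subtype.ext h)
  have h1' : (1 - a : K) ≠ 0 := fun h => h1 (Subtype.ext h)
  rcases hO ((a : K) / (1 - a)) with h | h
  · right
    refine IsUnit.of_mul_eq_one (⟨a / (1 - a), h⟩ + 1) (Subtype.ext ?_)
    change (1 - (a : K)) * (a / (1 - a) + 1) = 1
    field_simp
    ring
  · left
    refine IsUnit.of_mul_eq_one (⟨((a : K) / (1 - a))⁻¹, h⟩ + 1) (Subtype.ext ?_)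
    change (a : K) * (((a : K) / (1 - a))⁻¹ + 1) = 1
    field_simp
    ring

/-- The residue field of the local ring of a prime element. -/
theorem exists_residue {R : Subalgebra k K} [IsNoetherianRing R] (f : R) (hf : Prime f)
    (hK : ∀ x : K, ∃ a b : R, b ≠ 0 ∧ x * b = a) :
    ∃ (O : Subalgebra k K) (hRO : R ≤ O) (L : Type u) (_ : Field L) (_ : Algebra k L)
      (ρ : O →ₐ[k] L), (∀ x, x ∈ O ∨ x⁻¹ ∈ O) ∧ (∀ b : R, ¬ f ∣ b → (b : K)⁻¹ ∈ O) ∧
      (∀ x : O, (x : K)⁻¹ ∉ O → ρ x = 0) ∧ (∀ r : R, ρ ⟨r, hRO r.2⟩ = 0 ↔ f ∣ r) := by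
  have hO := ordRing_total f hf hK
  have hloc := isLocalRing_of_total (ordRing f hf) hO
  let L := IsLocalRing.ResidueField (ordRing f hf)
  let ρ : ordRing f hf →ₐ[k] L :=
    { IsLocalRing.residue (ordRing f hf) with
      commutes' := fun r => rfl }
  have hρ : ∀ x, ρ x = 0 ↔ ¬ IsUnit x := fun x => by
    change IsLocalRing.residue (ordRing f hf) x = 0 ↔ _
    rw [IsLocalRing.residue_eq_zero_iff, IsLocalRing.mem_maximalIdeal, mem_nonunits_iff]
  have hunit : ∀ x : ordRing f hf, IsUnit x → (x : K)⁻¹ ∈ ordRing f hf := by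
    intro x hx
    obtain ⟨y, hy⟩ := hx.exists_right_inv
    have h1 : (x : K) * y = 1 := congrArg Subtype.val hy
    rw [← eq_inv_of_mul_eq_one_right h1]
    exact y.2
  have hunit' : ∀ x : ordRing f hf, (x : K) ≠ 0 → (x : K)⁻¹ ∈ ordRing f hf → IsUnit x := by
    intro x h0 hx
    exact IsUnit.of_mul_eq_one ⟨_, hx⟩ (Subtype.ext (mul_inv_cancel₀ h0))
  refine ⟨ordRing f hf, le_ordRing f hf, L, inferInstance, inferInstance, ρ, hO,
    fun b hb => inv_mem_ordRing f hf hb, fun x hx => (hρ x).2 fun h => hx (hunit x h), ?_⟩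
  intro r
  rw [hρ]
  constructor
  · intro h
    by_contra hn
    apply h
    refine hunit' _ ?_ (inv_mem_ordRing f hf hn)
    intro h0
    apply hn
    have : r = 0 := Subtype.ext h0
    rw [this]; exact dvd_zero f
  · rintro ⟨s, rfl⟩ hu
    obtain ⟨a, b, hb, h1⟩ := (mem_ordRing f hf).1 (hunit _ hu)
    apply hb
    have hne : ((f * s : R) : K) ≠ 0 := by
      intro h0
      have h2 : (⟨((f * s : R) : K), le_ordRing f hf (f * s).2⟩ : ordRing f hf) = 0 :=
        Subtype.ext h0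
      rw [h2] at hu
      exact not_isUnit_zero hu
    refine ⟨s * a, Subtype.ext ?_⟩
    push_cast
    rw [← h1]
    push_cast
    rw [Subalgebra.coe_mul] at hne
    have e : (f : K) * (s * (((f : K) * s)⁻¹ * b)) = (f * s) * ((f : K) * s)⁻¹ * b := by ring
    rw [e, mul_inv_cancel₀ hne, one_mul]

end res

section kernel

variable {k K : Type u} [Field k] [Field K] [Algebra k K]

lemma div_mem_of_mul_div {A : Subalgebra k K} [Algebra.Smooth k A] {J : Type} {x : J → K}
    (hS : SNC A x) {i j : J} (hij : i ≠ j) (hi : x i ∈ A) (hj : x j ∈ A) (hi0 : x i ≠ 0) {a : K}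
    (ha : a ∈ A) (h : x j * (a / x i) ∈ A) : a / x i ∈ A := by
  have h1 : (⟨x i, hi⟩ : A) ∣ ⟨x j, hj⟩ * ⟨a, ha⟩ := by
    refine ⟨⟨_, h⟩, Subtype.ext ?_⟩
    change x j * a = x i * (x j * (a / x i))
    field_simp
  obtain ⟨b, hb⟩ := dvd_of_dvd_mul (k := k) (⟨x j, hj⟩ : A) ⟨x i, hi⟩ (by
      intro κ _ _ φ hφ
      obtain ⟨D, hD, -⟩ := hS κ φ i hi hφ
      exact ⟨D, by rw [hD]; exact one_ne_zero⟩) (by
      intro κ _ _ φ hφi hφj
      obtain ⟨D, hD, hD'⟩ := hS κ φ j hj hφj
      exact ⟨D, by rw [hD]; exact one_ne_zero, hD' i hi hij hφi⟩) _ h1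
  have h2 : a = x i * b := congrArg Subtype.val hb
  have h3 : a / x i = b := by rw [h2]; field_simp
  rw [h3]
  exact b.2

lemma div_mem_of_prod_mul {A : Subalgebra k K} [Algebra.Smooth k A] {I : Type} [Fintype I]
    {y : K} {x : I → K} (hS : SNC A (fun o : Option I => o.elim y x)) (hy : y ∈ A)
    (hx : ∀ l, x l ∈ A) (hy0 : y ≠ 0) (hx0 : ∀ l, x l ≠ 0) (γ : I → ℤ) {a : K} (ha : a ∈ A)
    (h : (∏ l, x l ^ γ l) * (a / y) ∈ A) : a / y ∈ A := by
  classical
  have key : ∀ (s : Finset I) (e : I → ℕ), (∏ l ∈ s, x l ^ e l) * (a / y) ∈ A → a / y ∈ A := by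
    intro s e
    induction s using Finset.induction_on with
    | empty => intro h; simpa using h
    | insert l s hl ih =>
      intro h
      apply ih
      rw [Finset.prod_insert hl] at h
      have hP : ∏ l ∈ s, x l ^ e l ∈ A := A.prod_mem fun l _ => A.pow_mem (hx l) _
      have h1 : ∀ n : ℕ, x l ^ n * ((∏ l ∈ s, x l ^ e l) * (a / y)) ∈ A →
          (∏ l ∈ s, x l ^ e l) * (a / y) ∈ A := by
        intro n
        induction n with
        | zero => intro h; simpa using h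
        | succ n ihn =>
          intro h
          apply ihn
          have h2 : x l ^ n * ((∏ l ∈ s, x l ^ e l) * (a / y)) =
              (x l ^ n * (∏ l ∈ s, x l ^ e l) * a) / y := by ring
          rw [h2]
          refine div_mem_of_mul_div (x := fun o : Option I => o.elim y x) hS
            (i := none) (j := some l) (by simp) hy (hx l) hy0
            (A.mul_mem (A.mul_mem (A.pow_mem (hx l) n) hP) ha) ?_
          change x l * (x l ^ n * (∏ l ∈ s, x l ^ e l) * a / y) ∈ A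
          have h3 : x l * (x l ^ n * (∏ l ∈ s, x l ^ e l) * a / y) =
              x l ^ (n + 1) * ((∏ l ∈ s, x l ^ e l) * (a / y)) := by ring
          rw [h3]
          exact h
      apply h1 (e l)
      rw [← mul_assoc]
      exact h
  refine key Finset.univ (fun l => (γ l).toNat) ?_
  have h1 : (∏ l, x l ^ (γ l).toNat) = (∏ l, x l ^ γ l) * ∏ l, x l ^ (- γ l).toNat := by
    rw [← Finset.prod_mul_distrib]
    refine Finset.prod_congr rfl fun l _ => ?_
    rw [← zpow_natCast, ← zpow_natCast, ← zpow_add₀ (hx0 l)]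
    congr 1
    omega
  rw [h1, mul_right_comm]
  exact A.mul_mem h (A.prod_mem fun l _ => A.pow_mem (hx l) _)

end kernel

section main

variable {k K : Type u} [Field k] [Field K] [Algebra k K]

/-- Resolution of hypersurfaces. -/
theorem hasResolution_hyp {R : Subalgebra k K} [IsNoetherianRing R]
    (hK : ∀ x : K, ∃ a b : R, b ≠ 0 ∧ x * b = a) {T I : Type} [Finite T] [Fintype I]
    (M : LM R R T I) {F : K} {γF : Unit → I → ℤ} (hFn : Fn M (fun _ : Unit => F) γF)
    (hBd : Bd M F) {ι : Type} [Fintype ι] [Nonempty ι] {m : ι → K} {Γ : ι → I → ℤ} {c : ι → k}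
    {f : K} (hAD : AddData M m Γ c f) (f' : R) (hff : (f' : K) = f) (hf : Prime f')
    (hnd : ¬ f' ∣ ⟨F, hBd.FR⟩) {A : Type u} [CommRing A] [IsDomain A] [Algebra k A]
    (q : R →ₐ[k] A) (hq : Function.Surjective q) (hker : ∀ r, q r = 0 ↔ f' ∣ r) :
    HasResolution (X := Spec (CommRingCat.of A))
      (Spec.map (CommRingCat.ofHom (algebraMap k A))) := by
  have hT := nonempty_T M
  obtain ⟨O, hRO, L, i1, i2, ρ, hO, hOinv, hρ1, hρ2⟩ := exists_residue f' hf hK
  obtain ⟨i0, M', hi0, hA, hH, hx⟩ := exists_add hAD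
  have hFinv : F⁻¹ ∈ O := hOinv _ hnd
  have hAO : ∀ t, M.A t ≤ O := by
    intro t a ha
    obtain ⟨n, hn⟩ := hBd.dF t a ha
    have : a = F⁻¹ ^ n * (F ^ n * a) := by
      rw [← mul_assoc, ← mul_pow, inv_mul_cancel₀ hBd.F0, one_pow, one_mul]
    rw [this]
    exact O.mul_mem (O.pow_mem hFinv n) (hRO hn)
  have hinv : ∀ t (y : K), y ≠ 0 → (∃ n : ℕ, F ^ n / y ∈ M.A t) → y⁻¹ ∈ O := by
    rintro t y hy ⟨n, hn⟩
    have : y⁻¹ = F⁻¹ ^ n * (F ^ n / y) := by
      rw [← mul_div_assoc, ← mul_pow, inv_mul_cancel₀ hBd.F0, one_pow, one_div]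
    rw [this]
    exact O.mul_mem (O.pow_mem hFinv n) (hAO t hn)
  have hHO : ∀ t, (M.H t)⁻¹ ∈ O := fun t => hinv t _ (M.H0 t) (hBd.FH t)
  have hq' := hq
  choose s hs using hq'
  have hρe : ∀ a b : R, q a = q b → ρ ⟨a, hRO a.2⟩ = ρ ⟨b, hRO b.2⟩ := by
    intro a b hab
    rw [← sub_eq_zero, ← map_sub]
    exact (hρ2 (a - b)).2 ((hker _).1 (by rw [map_sub, hab, sub_self]))
  let g0 : A →ₐ[k] L := AlgHom.ofLinearMap
    { toFun := fun a => ρ ⟨s a, hRO (s a).2⟩
      map_add' := by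
        intro a b
        rw [← map_add]
        exact hρe (s (a + b)) (s a + s b) (by rw [map_add, hs, hs, hs])
      map_smul' := by
        intro r a
        rw [RingHom.id_apply, ← map_smul]
        exact hρe (s (r • a)) (r • s a) (by rw [map_smul, hs, hs]) } (by
      change ρ _ = 1
      rw [← map_one ρ]
      exact hρe (s 1) 1 (by rw [map_one, hs])) (by
      intro a b
      change ρ _ = ρ _ * ρ _
      rw [← map_mul]
      exact hρe (s (a * b)) (s a * s b) (by rw [map_mul, hs, hs, hs]))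
  have hg0 : ∀ r : R, g0 (q r) = ρ ⟨r, hRO r.2⟩ := by
    intro r
    exact hρe (s (q r)) r (hs _)
  have hg0inj : Function.Injective g0 := by
    rw [injective_iff_map_eq_zero]
    intro a ha
    obtain ⟨r, rfl⟩ := hq a
    rw [hg0] at ha
    exact (hker r).2 ((hρ2 r).1 ha)
  have hm0 : ∀ i, m i ≠ 0 := hAD.fn.ne
  have hS : ∀ t, SNC (M.A t) (fun o : Option I => o.elim (f / m (i0 t)) (M.x t)) := by
    intro t
    have := M'.snc t
    rw [hA, hx] at this
    exact this
  have hfA : ∀ t, f / m (i0 t) ∈ M.A t := by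
    intro t
    have := M'.xA t none
    rw [hA, hx] at this
    exact this
  have hfh0 : ∀ t, f / m (i0 t) ≠ 0 := fun t => div_ne_zero hAD.f0 (hm0 _)
  have hkerψ : ∀ t (a : M.A t), ρ ⟨a, hAO t a.2⟩ = 0 ↔ (⟨_, hfA t⟩ : M.A t) ∣ a := by
    intro t a
    constructor
    · intro ha
      obtain ⟨n, hn⟩ := hBd.dF t a a.2
      have h1 : ρ ⟨F ^ n * a, hRO hn⟩ = 0 := by
        have e : (⟨F ^ n * a, hRO hn⟩ : O) = ⟨F ^ n, O.pow_mem (hRO hBd.FR) n⟩ *
          ⟨a, hAO t a.2⟩ := rfl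
        rw [e, map_mul, ha, mul_zero]
      obtain ⟨r, hr⟩ := (hρ2 ⟨_, hn⟩).1 h1
      have h2 : F ^ n * a = f * r := by
        rw [← hff]; exact congrArg Subtype.val hr
      obtain ⟨n', hn'⟩ := (hBd.exists_mul_mem hAD.fn (i0 t) t).1
      obtain ⟨w, w0, w1, w2, w3'⟩ := hFn () t
      have w3 : F = w * ∏ l, M.x t l ^ γF () l := w3'
      have := M.sm t
      have h3 : (a : K) / (f / m (i0 t)) ∈ M.A t := by
        refine div_mem_of_prod_mul (hS t) (hfA t) (M.xA t) (hfh0 t) (M.x0 t)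
          (fun l => ((n + n' : ℕ) : ℤ) * γF () l) a.2 ?_
        have e1 : ∏ l, M.x t l ^ (((n + n' : ℕ) : ℤ) * γF () l) = w⁻¹ ^ (n + n') *
            F ^ (n + n') := by
          have e4 : w⁻¹ ^ (n + n') * F ^ (n + n') = (∏ l, M.x t l ^ γF () l) ^ (n + n') := by
            rw [← mul_pow]
            congr 1
            rw [w3, ← mul_assoc, inv_mul_cancel₀ w0, one_mul]
          rw [e4, ← Finset.prod_pow]
          refine Finset.prod_congr rfl fun l _ => ?_
          rw [mul_comm, zpow_mul, zpow_natCast]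
        rw [e1]
        have h5 := hm0 (i0 t)
        have h6 := hAD.f0
        have e2 : w⁻¹ ^ (n + n') * F ^ (n + n') * ((a : K) / (f / m (i0 t))) =
            w⁻¹ ^ (n + n') * (F ^ n' * m (i0 t)) * ((F ^ n * a) / f) := by
          field_simp
          ring
        rw [e2, h2]
        have e3 : f * (r : K) / f = r := by field_simp
        rw [e3]
        exact (M.A t).mul_mem ((M.A t).mul_mem ((M.A t).pow_mem w2 _) hn') (M.base t r.2)
      refine ⟨⟨_, h3⟩, Subtype.ext ?_⟩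
      change (a : K) = f / m (i0 t) * (a / (f / m (i0 t)))
      have := hfh0 t
      rw [mul_div_cancel₀ _ this]
    · rintro ⟨b, hb⟩
      have h1 : ρ ⟨f / m (i0 t), hAO t (hfA t)⟩ = 0 := by
        have h2 : (m (i0 t))⁻¹ ∈ O := hinv t _ (hm0 _)
          (hBd.exists_mul_mem hAD.fn (i0 t) t).2
        have e : (⟨f / m (i0 t), hAO t (hfA t)⟩ : O) = ⟨f', hRO f'.2⟩ *
            ⟨(m (i0 t))⁻¹, h2⟩ := by
          apply Subtype.ext
          change f / m (i0 t) = (f' : K) * (m (i0 t))⁻¹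
          rw [hff, div_eq_mul_inv]
        rw [e, map_mul, (hρ2 f').2 dvd_rfl, zero_mul]
      have e : (⟨a, hAO t a.2⟩ : O) = ⟨f / m (i0 t), hAO t (hfA t)⟩ * ⟨b, hAO t b.2⟩ := by
        apply Subtype.ext
        change (a : K) = f / m (i0 t) * b
        exact congrArg Subtype.val hb
      rw [e, map_mul, h1, zero_mul]
  refine hasResolution_of_atl g0 hg0inj
    (atl_of_place M O hO hAO hHO hRO ρ hρ1 g0 q hq hg0 ?_)
  intro t
  have := M.sm t
  have h1 : Algebra.Smooth k (M.A t ⧸ Ideal.span {(⟨_, hfA t⟩ : M.A t)}) := by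
    refine smooth_quot _ ?_
    intro κ _ _ φ hφ
    obtain ⟨D, hD, -⟩ := hS t κ φ none (hfA t) hφ
    exact ⟨D, by
      have : D.D ⟨f / m (i0 t), hfA t⟩ = 1 := hD
      rw [this]; exact one_ne_zero⟩
  let ψ : M.A t →ₐ[k] L := ρ.comp (Subalgebra.inclusion (hAO t))
  have h2 : RingHom.ker ψ = Ideal.span {(⟨_, hfA t⟩ : M.A t)} := by
    ext a
    rw [RingHom.mem_ker, Ideal.mem_span_singleton]
    exact hkerψ t a
  have e1 : (M.A t ⧸ RingHom.ker ψ) ≃ₐ[k] ψ.range := Ideal.quotientKerEquivRange ψ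
  rw [h2] at e1
  exact Algebra.Smooth.of_equiv e1

end main

end Pool.Agent.W558
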