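import Pool.Agent.H59.L.S8.W558.Fin1

set_option autoImplicit false
set_option linter.unusedVariables false
set_option linter.unusedSectionVars false

universe u v

open AlgebraicGeometry CategoryTheory Pool.Agent.H920R2 MvPolynomial

namespace Pool.Agent.W558

section init

variable (k : Type u) [Field k] (n : ℕ)

/-- The field of rational functions. -/
abbrev KK : Type u := FractionRing (MvPolynomial (Fin n) k)

/-- The embedding of the polynomials in the field of rational functions. -/
noncomputable def em : MvPolynomial (Fin n) k →ₐ[k] KK k n :=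
  IsScalarTower.toAlgHom k (MvPolynomial (Fin n) k) (KK k n)

lemma em_inj : Function.Injective (em k n) := IsFractionRing.injective _ _

/-- The ring of polynomials as a subring of the field of rational functions. -/
noncomputable def RR : Subalgebra k (KK k n) := (em k n).range

/-- The ring of polynomials. -/
noncomputable def eR : MvPolynomial (Fin n) k ≃ₐ[k] RR k n :=
  AlgEquiv.ofInjective (em k n) (em_inj k n)

lemma eR_coe (f : MvPolynomial (Fin n) k) : ((eR k n f : RR k n) : KK k n) = em k n f := rfl

variable {k n}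

lemma em_mem (f : MvPolynomial (Fin n) k) : em k n f ∈ RR k n := ⟨f, rfl⟩

/-- The coordinates. -/
noncomputable def xx (s : Fin n) : KK k n := em k n (X s)

lemma xx_ne (s : Fin n) : (xx s : KK k n) ≠ 0 := by
  intro h
  exact X_ne_zero s ((map_eq_zero_iff _ (em_inj k n)).1 h)

/-- Derivations of the polynomial ring extend. -/
lemma exists_ext (δ : Derivation k (MvPolynomial (Fin n) k) (MvPolynomial (Fin n) k)) :
    ∃ D : Derivation k (KK k n) (KK k n), ∀ a, D (em k n a) = em k n (δ a) :=
  exists_der_frac (K := KK k n) δ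

lemma snc_init : SNC (RR k n) (xx : Fin n → KK k n) := by
  intro κ _ _ φ i hi hφ
  obtain ⟨D, hD⟩ := exists_ext (k := k) (n := n) (pderiv i)
  have hDA : ∀ f ∈ RR k n, D f ∈ RR k n := by
    rintro _ ⟨a, rfl⟩
    exact ⟨_, (hD a).symm⟩
  refine ⟨TV.ofDer D hDA φ, ?_, ?_⟩
  · rw [TV.ofDer_D, ← map_one φ]
    congr 1
    apply Subtype.ext
    change D (em k n (X i)) = 1
    rw [hD, pderiv_X_self, map_one]
  · intro j hj hne hφj
    rw [TV.ofDer_D, ← map_zero φ]
    congr 1
    apply Subtype.ext
    change D (em k n (X j)) = 0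
    rw [hD, pderiv_X_of_ne hne, map_zero]

/-- The affine space as a model. -/
noncomputable def model0 : LM (RR k n) (RR k n) Unit (Fin n) where
  A := fun _ => RR k n
  H := fun _ => 1
  x := fun _ => xx
  sm := fun _ => by
    have : Algebra.Smooth k (MvPolynomial (Fin n) k) := ⟨inferInstance, inferInstance⟩
    exact Algebra.Smooth.of_equiv (eR k n)
  base := fun _ => le_rfl
  H0 := fun _ => one_ne_zero
  HR := fun _ => (RR k n).one_mem
  rt := fun _ _ => by rw [div_one]; exact (RR k n).one_mem
  gl := fun _ _ f hf => ⟨0, by simpa using hf⟩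
  dn := fun _ f hf => ⟨0, by simpa using hf⟩
  cv := fun V hV => ⟨(), hV⟩
  xA := fun _ i => em_mem _
  x0 := fun _ i => xx_ne i
  gi := fun _ _ i => ⟨0, by
    rw [pow_zero, one_mul, div_self (xx_ne i)]
    exact (RR k n).one_mem⟩
  snc := fun _ => snc_init

/-- The logarithmic derivations with given weights. -/
def LogDer (b : Fin n → k) (D : Derivation k (KK k n) (KK k n)) : Prop :=
  (∀ f ∈ RR k n, D f ∈ RR k n) ∧ ∀ s, D (xx s) = b s • xx s

lemma exists_logDer (b : Fin n → k) : ∃ D, LogDer b D := by
  obtain ⟨D, hD⟩ := exists_ext (k := k) (n := n) (mkDerivation k fun s => b s • X s)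
  refine ⟨D, ?_, ?_⟩
  · rintro _ ⟨a, rfl⟩
    exact ⟨_, (hD a).symm⟩
  · intro s
    rw [xx, hD, mkDerivation_X, map_smul]

lemma stage_init : Stage (RR k n) (RR k n) (xx : Fin n → KK k n) {D | ∃ b, LogDer b D} := by
  classical
  refine ⟨Unit, Fin n, inferInstance, inferInstance, inferInstance, model0,
    fun s i => if i = s then 1 else 0, ?_, ?_, ?_⟩
  · intro s _
    refine ⟨1, one_ne_zero, Subalgebra.one_mem _, by rw [inv_one]; exact Subalgebra.one_mem _, ?_⟩
    rw [one_mul, Finset.prod_eq_single s]
    · simp only [if_true, zpow_one]; rfl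
    · intro i _ hi
      simp only [if_neg hi, zpow_zero]
    · intro h; exact absurd (Finset.mem_univ s) h
  · rintro D ⟨b, hD⟩
    refine ⟨fun _ => hD.1, fun _ s => ?_⟩
    change D (xx s) / xx s ∈ RR k n
    rw [hD.2, Algebra.smul_def, mul_div_assoc, div_self (xx_ne s), mul_one]
    exact (RR k n).algebraMap_mem _
  · have hmem : ∏ s, (xx s : KK k n) ∈ RR k n := (RR k n).prod_mem fun s _ => em_mem _
    refine ⟨Finset.prod_ne_zero_iff.2 fun s _ => xx_ne s, hmem, hmem,
      fun _ f hf => ⟨0, by rw [pow_zero, one_mul]; exact hf⟩, ?_, fun _ => ⟨0, ?_⟩⟩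
    · intro _ s
      refine ⟨1, ?_⟩
      change (∏ s, (xx s : KK k n)) ^ 1 / xx s ∈ RR k n
      rw [pow_one, ← Finset.mul_prod_erase _ _ (Finset.mem_univ s), mul_comm,
        mul_div_assoc, div_self (xx_ne s), mul_one]
      exact (RR k n).prod_mem fun s _ => em_mem _
    · change (∏ s, (xx s : KK k n)) ^ 0 / 1 ∈ RR k n
      rw [pow_zero, div_one]
      exact (RR k n).one_mem

end init

end Pool.Agent.W558
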