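import Pool.Agent.H59.L.S8.W558.Atlas
import Pool.Agent.H59.L.S8.W558.Stage

set_option autoImplicit false
set_option linter.unusedVariables false
set_option linter.unusedSectionVars false

universe u v

namespace Pool.Agent.W558

section place

variable {k K : Type u} [Field k] [Field K] [Algebra k K]

/-- The composite of a valuation ring with a place. -/
def compV (O : Subalgebra k K) (hO : ∀ x : K, x ∈ O ∨ x⁻¹ ∈ O) {L : Type u} [Field L]
    [Algebra k L] (ρ : O →ₐ[k] L) (hρ : ∀ x : O, (x : K)⁻¹ ∉ O → ρ x = 0)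
    (V : ValuationSubring L) : ValuationSubring K where
  carrier := {x | ∃ h : x ∈ O, ρ ⟨x, h⟩ ∈ V}
  mul_mem' := by
    rintro x y ⟨hx, hx'⟩ ⟨hy, hy'⟩
    refine ⟨O.mul_mem hx hy, ?_⟩
    have : (⟨x * y, O.mul_mem hx hy⟩ : O) = ⟨x, hx⟩ * ⟨y, hy⟩ := rfl
    rw [this, map_mul]
    exact V.mul_mem _ _ hx' hy'
  one_mem' := ⟨O.one_mem, by
    have : (⟨1, O.one_mem⟩ : O) = 1 := rfl
    rw [this, map_one]
    exact V.one_mem⟩
  add_mem' := by
    rintro x y ⟨hx, hx'⟩ ⟨hy, hy'⟩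
    refine ⟨O.add_mem hx hy, ?_⟩
    have : (⟨x + y, O.add_mem hx hy⟩ : O) = ⟨x, hx⟩ + ⟨y, hy⟩ := rfl
    rw [this, map_add]
    exact V.add_mem _ _ hx' hy'
  zero_mem' := ⟨O.zero_mem, by
    have : (⟨0, O.zero_mem⟩ : O) = 0 := rfl
    rw [this, map_zero]
    exact V.zero_mem⟩
  neg_mem' := by
    rintro x ⟨hx, hx'⟩
    refine ⟨O.neg_mem hx, ?_⟩
    have : (⟨-x, O.neg_mem hx⟩ : O) = -⟨x, hx⟩ := rfl
    rw [this, map_neg]
    exact V.neg_mem _ hx'
  mem_or_inv_mem' := by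
    intro x
    by_cases hx : x ∈ O
    · by_cases hx' : x⁻¹ ∈ O
      · by_cases h0 : x = 0
        · left
          refine ⟨hx, ?_⟩
          have : (⟨x, hx⟩ : O) = 0 := Subtype.ext h0
          rw [this, map_zero]
          exact V.zero_mem
        · rcases V.mem_or_inv_mem (ρ ⟨x, hx⟩) with h | h
          · exact Or.inl ⟨hx, h⟩
          · right
            refine ⟨hx', ?_⟩
            have h1 : ρ ⟨x, hx⟩ * ρ ⟨x⁻¹, hx'⟩ = 1 := by
              rw [← map_mul, ← map_one ρ]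
              congr 1
              exact Subtype.ext (mul_inv_cancel₀ h0)
            rw [← eq_inv_of_mul_eq_one_right h1] at h
            exact h
      · left
        refine ⟨hx, ?_⟩
        rw [hρ ⟨x, hx⟩ hx']
        exact V.zero_mem
    · have hx' : x⁻¹ ∈ O := (hO x).resolve_left hx
      right
      refine ⟨hx', ?_⟩
      rw [hρ ⟨x⁻¹, hx'⟩ (by rw [inv_inv]; exact hx)]
      exact V.zero_mem

lemma mem_compV {O : Subalgebra k K} {hO : ∀ x : K, x ∈ O ∨ x⁻¹ ∈ O} {L : Type u} [Field L]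
    [Algebra k L] {ρ : O →ₐ[k] L} {hρ : ∀ x : O, (x : K)⁻¹ ∉ O → ρ x = 0}
    {V : ValuationSubring L} {x : K} : x ∈ compV O hO ρ hρ V ↔ ∃ h : x ∈ O, ρ ⟨x, h⟩ ∈ V :=
  Iff.rfl

/-- The atlas of the closure of a subvariety. -/
theorem atl_of_place {R : Subalgebra k K} {T I : Type} (M : LM R R T I) (O : Subalgebra k K)
    (hO : ∀ x : K, x ∈ O ∨ x⁻¹ ∈ O) (hAO : ∀ t, M.A t ≤ O)
    (hHO : ∀ t, (M.H t)⁻¹ ∈ O) (hRO : R ≤ O) {L : Type u} [Field L] [Algebra k L]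
    (ρ : O →ₐ[k] L) (hρ : ∀ x : O, (x : K)⁻¹ ∉ O → ρ x = 0)
    {A : Type u} [CommRing A] [Algebra k A] (g : A →ₐ[k] L) (q : R →ₐ[k] A)
    (hq : Function.Surjective q) (hgq : ∀ r : R, g (q r) = ρ ⟨r, hRO r.2⟩)
    (hsm : ∀ t, Algebra.Smooth k (ρ.comp (Subalgebra.inclusion (hAO t))).range) :
    Atl g (fun t => (ρ.comp (Subalgebra.inclusion (hAO t))).range)
      (fun t => ρ ⟨M.H t, hAO t (M.base t (M.HR t))⟩) := by
  have hHA : ∀ t t', M.H t ∈ M.A t' := fun t t' => M.base t' (M.HR t)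
  have hHmul : ∀ t, ρ ⟨M.H t, hAO t (M.base t (M.HR t))⟩ * ρ ⟨(M.H t)⁻¹, hHO t⟩ = 1 := by
    intro t
    rw [← map_mul, ← map_one ρ]
    congr 1
    exact Subtype.ext (mul_inv_cancel₀ (M.H0 t))
  have hH0 : ∀ t, ρ ⟨M.H t, hAO t (M.base t (M.HR t))⟩ ≠ 0 := by
    intro t h0
    have := hHmul t
    rw [h0, zero_mul] at this
    exact zero_ne_one this
  have hdiv : ∀ t t', ρ ⟨M.H t', hAO t' (M.base t' (M.HR t'))⟩ /
      ρ ⟨M.H t, hAO t (M.base t (M.HR t))⟩ = ρ ⟨M.H t' / M.H t, hAO t (M.rt t t')⟩ := by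
    intro t t'
    rw [div_eq_iff (hH0 t), ← map_mul]
    congr 1
    exact Subtype.ext (div_mul_cancel₀ _ (M.H0 t)).symm
  refine { sm := hsm, aa := ?_, H0 := hH0, hA := ?_, rt := ?_, gl := ?_, dn := ?_, cv := ?_ }
  · intro t a
    obtain ⟨r, rfl⟩ := hq a
    rw [hgq]
    exact ⟨⟨r, M.base t r.2⟩, rfl⟩
  · intro t
    exact ⟨q ⟨M.H t, M.HR t⟩, by rw [hgq]⟩
  · intro t t'
    rw [hdiv]
    exact ⟨⟨_, M.rt t t'⟩, rfl⟩
  · rintro t t' _ ⟨a, rfl⟩
    obtain ⟨n, hn⟩ := M.gl t t' a a.2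
    refine ⟨n, ⟨_, hn⟩, ?_⟩
    rw [hdiv, ← map_pow]
    change ρ _ = ρ _ * ρ _
    rw [← map_mul]
    rfl
  · rintro t _ ⟨a, rfl⟩
    obtain ⟨n, hn⟩ := M.dn t a a.2
    refine ⟨n, q ⟨_, hn⟩, ?_⟩
    rw [hgq, ← map_pow]
    change ρ _ * ρ _ = ρ _
    rw [← map_mul]
    rfl
  · intro V hV
    obtain ⟨t, ht⟩ := M.cv (compV O hO ρ hρ V) (by
      intro r hr
      refine mem_compV.2 ⟨hRO hr, ?_⟩
      have := hV (q ⟨r, hr⟩)
      rwa [hgq] at this)
    refine ⟨t, ?_⟩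
    rintro _ ⟨a, rfl⟩
    obtain ⟨h1, h2⟩ := mem_compV.1 (ht a a.2)
    exact h2

end place

section dvr

variable {k K : Type u} [Field k] [Field K] [Algebra k K] {R : Subalgebra k K}

/-- The local ring of a prime element. -/
def ordRing (f : R) (hf : Prime f) : Subalgebra k K where
  carrier := {x | ∃ a b : R, ¬ f ∣ b ∧ x * b = a}
  mul_mem' := by
    rintro x y ⟨a, b, hb, h1⟩ ⟨a', b', hb', h2⟩
    refine ⟨a * a', b * b', fun h => (hf.dvd_or_dvd h).elim hb hb', ?_⟩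
    push_cast
    rw [← h1, ← h2]; ring
  add_mem' := by
    rintro x y ⟨a, b, hb, h1⟩ ⟨a', b', hb', h2⟩
    refine ⟨a * b' + a' * b, b * b', fun h => (hf.dvd_or_dvd h).elim hb hb', ?_⟩
    push_cast
    rw [← h1, ← h2]; ring
  algebraMap_mem' := by
    intro r
    refine ⟨algebraMap k R r, 1, fun h => hf.not_isUnit (isUnit_of_dvd_one h), ?_⟩
    rw [Subalgebra.coe_one, mul_one]
    rfl

variable (f : R) (hf : Prime f)

lemma mem_ordRing {x : K} : x ∈ ordRing f hf ↔ ∃ a b : R, ¬ f ∣ b ∧ x * b = a := Iff.rfl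

lemma le_ordRing : R ≤ ordRing f hf := fun r hr =>
  ⟨⟨r, hr⟩, 1, fun h => hf.not_isUnit (isUnit_of_dvd_one h), by simp⟩

lemma inv_mem_ordRing {b : R} (hb : ¬ f ∣ b) : (b : K)⁻¹ ∈ ordRing f hf := by
  refine ⟨1, b, hb, ?_⟩
  have : (b : K) ≠ 0 := by
    intro h0
    apply hb
    have : b = 0 := Subtype.ext h0
    rw [this]; exact dvd_zero f
  rw [inv_mul_cancel₀ this]
  rfl

lemma ordRing_total [IsNoetherianRing R] (hK : ∀ x : K, ∃ a b : R, b ≠ 0 ∧ x * b = a) (x : K) :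
    x ∈ ordRing f hf ∨ x⁻¹ ∈ ordRing f hf := by
  by_cases hx : x = 0
  · left; rw [hx]; exact (ordRing f hf).zero_mem
  obtain ⟨a, b, hb, hab⟩ := hK x
  have hb0 : (b : K) ≠ 0 := fun h => hb (Subtype.ext h)
  have ha : a ≠ 0 := by
    intro h0
    rw [h0, Subalgebra.coe_zero] at hab
    exact (mul_ne_zero hx hb0) hab
  have hfm : ∀ a : R, a ≠ 0 → FiniteMultiplicity f a := fun a ha =>
    FiniteMultiplicity.of_prime_left hf ha
  obtain ⟨a', ha1, ha2⟩ := (hfm a ha).exists_eq_pow_mul_and_not_dvd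
  obtain ⟨b', hb1, hb2⟩ := (hfm b hb).exists_eq_pow_mul_and_not_dvd
  set n := multiplicity f a
  set m := multiplicity f b
  have hf0 : (f : K) ≠ 0 := fun h => hf.ne_zero (Subtype.ext h)
  have hab' : x * ((f : K) ^ m * b') = (f : K) ^ n * a' := by
    have e1 : (b : K) = (f : K) ^ m * b' := by
      conv_lhs => rw [hb1]
      push_cast; ring
    have e2 : (a : K) = (f : K) ^ n * a' := by
      conv_lhs => rw [ha1]
      push_cast; ring
    rw [← e1, ← e2]; exact hab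
  rcases le_total m n with h | h
  · left
    obtain ⟨e, he⟩ := Nat.exists_eq_add_of_le h
    refine ⟨f ^ e * a', b', hb2, ?_⟩
    have h1 : (f : K) ^ m ≠ 0 := pow_ne_zero _ hf0
    apply mul_left_cancel₀ h1
    push_cast
    rw [he, pow_add] at hab'
    linear_combination hab'
  · right
    obtain ⟨e, he⟩ := Nat.exists_eq_add_of_le h
    refine ⟨f ^ e * b', a', ha2, ?_⟩
    have h1 : (f : K) ^ n ≠ 0 := pow_ne_zero _ hf0
    have h2 : x * ((f : K) ^ e * b') = a' := by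
      apply mul_left_cancel₀ h1
      rw [he, pow_add] at hab'
      linear_combination hab'
    rw [← h2]
    push_cast
    field_simp

end dvr

end Pool.Agent.W558
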