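import Pool.Agent.H59.L.S8.W558.TV

set_option autoImplicit false

universe u v

open TensorProduct

namespace Pool.Agent.W558

/-- Smooth algebras over fields are reduced. -/
theorem isReduced_of_smooth (k S : Type u) [Field k] [CommRing S] [Algebra k S]
    [Algebra.Smooth k S] : IsReduced S := by
  refine ⟨fun b hb => ?_⟩
  let T : Polynomial k := Polynomial.X
  let L : S ⊗[k] Polynomial k →ₗ[k] S :=
    (TensorProduct.rid k S).toLinearMap ∘ₗ LinearMap.lTensor S (Polynomial.lcoeff k 1)
  have hL : ∀ (s : S) (P : Polynomial k), L (s ⊗ₜ P) = P.coeff 1 • s := by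
    intro s P
    simp [L]
  have hint : IsIntegral S (b ⊗ₜ[k] T) := by
    obtain ⟨n, hn⟩ := hb
    refine IsIntegral.of_pow (n := n + 1) (Nat.succ_pos n) ?_
    rw [Algebra.TensorProduct.tmul_pow, pow_succ b, hn, zero_mul, TensorProduct.zero_tmul]
    exact isIntegral_zero
  have hbij := TensorProduct.toIntegralClosure_bijective_of_smooth (R := k) (S := S)
    (B := Polynomial k)
  obtain ⟨z, hz⟩ := hbij.2 ⟨b ⊗ₜ[k] T, hint⟩
  have hz' : ((TensorProduct.toIntegralClosure k S (Polynomial k) z :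
      integralClosure S (S ⊗[k] Polynomial k)) : S ⊗[k] Polynomial k) = b ⊗ₜ[k] T :=
    congrArg Subtype.val hz
  have key : ∀ w, L ((TensorProduct.toIntegralClosure k S (Polynomial k) w :
      integralClosure S (S ⊗[k] Polynomial k)) : S ⊗[k] Polynomial k) = 0 := by
    intro w
    induction w with
    | zero => simp
    | add x y hx hy => rw [map_add, Subalgebra.coe_add, map_add, hx, hy, add_zero]
    | tmul s P =>
      change L ((Algebra.TensorProduct.map (.id S S) (integralClosure k (Polynomial k)).val)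
        (s ⊗ₜ P)) = 0
      rw [Algebra.TensorProduct.map_tmul]
      change L (s ⊗ₜ (P : Polynomial k)) = 0
      rw [hL]
      have hP : (P : Polynomial k).natDegree = 0 := by
        by_contra hne
        have h1 : Transcendental k (P : Polynomial k) := by
          refine Polynomial.transcendental _ hne ?_
          rw [mem_nonZeroDivisors_iff_ne_zero, ne_eq, Polynomial.leadingCoeff_eq_zero]
          intro h0
          rw [h0, Polynomial.natDegree_zero] at hne
          exact hne rfl
        exact h1 (IsIntegral.isAlgebraic P.2)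
      rw [Polynomial.coeff_eq_zero_of_natDegree_lt (by omega), zero_smul]
  have h1 := key z
  rw [hz', hL] at h1
  simpa [T] using h1

section nzd

variable {k A : Type u} [Field k] [CommRing A] [Algebra k A]

/-- If `x` and `y` are transversal in a smooth algebra then `x` is not a zero divisor
modulo `y`. -/
theorem dvd_of_dvd_mul [Algebra.Smooth k A] (x y : A)
    (hy : ∀ (κ : Type u) [Field κ] [Algebra k κ] (φ : A →ₐ[k] κ), φ y = 0 →
      ∃ D : TV φ, D.D y ≠ 0)
    (hx : ∀ (κ : Type u) [Field κ] [Algebra k κ] (φ : A →ₐ[k] κ), φ y = 0 → φ x = 0 →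
      ∃ D : TV φ, D.D x ≠ 0 ∧ D.D y = 0) (b : A) (h : y ∣ x * b) : y ∣ b := by
  have hsm := smooth_quot y hy
  have hred := isReduced_of_smooth k (A ⧸ Ideal.span {y})
  by_contra hb
  let π : A →ₐ[k] A ⧸ Ideal.span {y} := Ideal.Quotient.mkₐ k _
  have hπb : π b ≠ 0 := by
    intro h0
    exact hb (Ideal.mem_span_singleton.1 (Ideal.Quotient.eq_zero_iff_mem.1 h0))
  have hnil : π b ∉ nilradical (A ⧸ Ideal.span {y}) := by
    rw [nilradical_eq_zero]
    exact hπb
  rw [nilradical_eq_sInf, Ideal.mem_sInf] at hnil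
  push Not at hnil
  obtain ⟨q, hq, hbq⟩ := hnil
  have hq' : q.IsPrime := hq
  let κ := FractionRing ((A ⧸ Ideal.span {y}) ⧸ q)
  let φ : A →ₐ[k] κ := (IsScalarTower.toAlgHom k ((A ⧸ Ideal.span {y}) ⧸ q) κ).comp
    ((Ideal.Quotient.mkₐ k q).comp π)
  have hφ0 : ∀ a, φ a = 0 ↔ π a ∈ q := by
    intro a
    change algebraMap _ κ (Ideal.Quotient.mk q (π a)) = 0 ↔ _
    rw [FaithfulSMul.algebraMap_eq_zero_iff, Ideal.Quotient.eq_zero_iff_mem]
  have hφy : φ y = 0 := by
    rw [hφ0]
    have : π y = 0 := Ideal.Quotient.eq_zero_iff_mem.2 (Ideal.mem_span_singleton_self y)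
    rw [this]
    exact q.zero_mem
  have hφb : φ b ≠ 0 := fun h0 => hbq ((hφ0 b).1 h0)
  obtain ⟨a, ha⟩ := h
  have hφx : φ x = 0 := by
    have h1 : φ (x * b) = 0 := by rw [ha, map_mul, hφy, zero_mul]
    rw [map_mul] at h1
    exact (mul_eq_zero.1 h1).resolve_right hφb
  obtain ⟨D, hD1, hD2⟩ := hx κ φ hφy hφx
  have h1 : D.D (x * b) = 0 := by rw [ha, D.leib, hφy, hD2, zero_mul, mul_zero, add_zero]
  rw [D.leib, hφx, zero_mul, zero_add] at h1
  exact (mul_ne_zero hφb hD1) h1

end nzd

end Pool.Agent.W558
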