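import Pool.Agent.H59.L.S8.W558.Model

set_option autoImplicit false
set_option linter.unusedVariables false
set_option linter.unusedSimpArgs false
set_option linter.unusedSectionVars false

universe u v

open Polynomial

namespace Pool.Agent.W558

section refine

variable {k K : Type u} [Field k] [Field K] [Algebra k K] {R0 R : Subalgebra k K}
    {T I : Type} (M : LM R0 R T I) {J : Type} (h : T → J → K)

/-- The charts of the refinement. -/
noncomputable def rA (p : T × J) : Subalgebra k K := adj (M.A p.1) (h p.1 p.2)⁻¹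

lemma le_rA (p : T × J) : M.A p.1 ≤ rA M h p := le_adj _ _

lemma inv_mem_rA (p : T × J) : (h p.1 p.2)⁻¹ ∈ rA M h p := self_mem_adj _ _

/-- The homogeneous coordinates of the refinement. -/
noncomputable def rH (N : ℕ) (p : T × J) : K := M.H p.1 ^ N * h p.1 p.2

/-- Refinement of the charts by localizations. -/
theorem exists_refine [Finite T] [Finite I] [Finite J] (hmem : ∀ t b, h t b ∈ M.A t)
    (hne : ∀ t b, h t b ≠ 0)
    (hcov : ∀ t (V : ValuationSubring K), (∀ f ∈ M.A t, f ∈ V) → ∃ b, (h t b)⁻¹ ∈ V) :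
    ∃ M' : LM R0 R (T × J) I,
    M'.A = rA M h ∧ M'.x = (fun p => M.x p.1) ∧
      ∃ N : ℕ, ∀ p : T × J, M'.H p = M.H p.1 ^ N * h p.1 p.2 := by
  obtain ⟨N1, hN1⟩ := M.exists_N
  obtain ⟨N2, hN2⟩ := M.exists_N' h hmem
  let N0 := N1 + N2
  let N : ℕ := N0 + 1
  have hH0 : ∀ p : T × J, rH M h N p ≠ 0 := fun p =>
    mul_ne_zero (pow_ne_zero _ (M.H0 _)) (hne _ _)
  have hinv := inv_mem_rA M h
  have hq : ∀ (p p' : T × J) (n : ℕ), N0 ≤ n →
      (M.H p'.1 / M.H p.1) ^ n * (h p'.1 p'.2 / h p.1 p.2) ∈ rA M h p := by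
    intro p p' n hn
    rw [div_eq_mul_inv (h p'.1 p'.2), ← mul_assoc]
    exact (rA M h p).mul_mem (le_rA M h p ((hN2 n (by omega)).1 _ _ _)) (hinv p)
  have hρ : ∀ p p' : T × J, rH M h N p' / rH M h N p =
      (M.H p'.1 / M.H p.1) * ((M.H p'.1 / M.H p.1) ^ N0 * (h p'.1 p'.2 / h p.1 p.2)) := by
    intro p p'
    rw [rH, rH, show N = N0 + 1 from rfl, pow_succ, pow_succ]
    have h1 := M.H0 p.1
    have h2 := hne p.1 p.2
    rw [div_pow]
    field_simp
  have hρmem : ∀ p p' : T × J, rH M h N p' / rH M h N p ∈ rA M h p := by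
    intro p p'
    rw [hρ]
    exact (rA M h p).mul_mem (le_rA M h p (M.rt _ _)) (hq p p' _ le_rfl)
  have hgl : ∀ p p' : T × J, ∀ f ∈ rA M h p', ∃ n : ℕ,
      (rH M h N p' / rH M h N p) ^ n * f ∈ rA M h p := by
    intro p p' f hf
    refine adj_induction (M.A p'.1) (h p'.1 p'.2)⁻¹
      (p := fun f => ∃ n : ℕ, (rH M h N p' / rH M h N p) ^ n * f ∈ rA M h p) ?_ ?_ ?_ f hf
    · intro a ha
      obtain ⟨n, hn⟩ := M.gl p.1 p'.1 a ha
      refine ⟨n, ?_⟩
      rw [hρ, mul_pow, mul_right_comm]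
      exact (rA M h p).mul_mem (le_rA M h p hn) ((rA M h p).pow_mem (hq p p' _ le_rfl) n)
    · rintro a b ⟨n, hn⟩ ⟨m, hm⟩
      refine ⟨n + m, ?_⟩
      have h1 : (rH M h N p' / rH M h N p) ^ (n + m) * (a + b) =
          (rH M h N p' / rH M h N p) ^ m * ((rH M h N p' / rH M h N p) ^ n * a) +
          (rH M h N p' / rH M h N p) ^ n * ((rH M h N p' / rH M h N p) ^ m * b) := by
        ring
      rw [h1]
      exact (rA M h p).add_mem
        ((rA M h p).mul_mem ((rA M h p).pow_mem (hρmem p p') m) hn)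
        ((rA M h p).mul_mem ((rA M h p).pow_mem (hρmem p p') n) hm)
    · rintro a ⟨n, hn⟩
      refine ⟨n + 1, ?_⟩
      have h1 : (rH M h N p' / rH M h N p) ^ (n + 1) * (a * (h p'.1 p'.2)⁻¹) =
          (rH M h N p' / rH M h N p) ^ n * a *
          (rH M h N p' / rH M h N p * (h p'.1 p'.2)⁻¹) := by ring
      rw [h1]
      refine (rA M h p).mul_mem hn ?_
      have h2 : rH M h N p' / rH M h N p * (h p'.1 p'.2)⁻¹ =
          (M.H p'.1 / M.H p.1) ^ N * (h p.1 p.2)⁻¹ := by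
        rw [rH, rH]
        have h1 := M.H0 p.1
        have h2 := hne p.1 p.2
        have h4 := hne p'.1 p'.2
        rw [div_pow]
        field_simp
      rw [h2]
      exact (rA M h p).mul_mem ((rA M h p).pow_mem (le_rA M h p (M.rt _ _)) _) (hinv p)
  have hR1 : ∀ p : T × J, ∀ n, N0 ≤ n → M.H p.1 ^ n * h p.1 p.2 ∈ R :=
    fun p n hn => (hN2 n (by omega)).2 _ _
  have hHR : ∀ p : T × J, rH M h N p ∈ R := fun p => hR1 p N (by omega)
  refine ⟨{ A := rA M h, H := rH M h N, x := fun p => M.x p.1,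
            sm := fun p => ?_,
            base := fun p => (M.base p.1).trans (le_rA M h p), H0 := hH0, HR := hHR,
            rt := hρmem, gl := hgl, dn := ?_, cv := ?_,
            xA := fun p i => le_rA M h p (M.xA p.1 i),
            x0 := fun p => M.x0 p.1, gi := ?_, snc := ?_ }, rfl, rfl, N, fun p => rfl⟩
  · have := M.sm p.1
    exact smooth_adj_inv (hmem p.1 p.2) (hne p.1 p.2)
  · intro p f hf
    refine adj_induction (M.A p.1) (h p.1 p.2)⁻¹
      (p := fun f => ∃ n : ℕ, rH M h N p ^ n * f ∈ R) ?_ ?_ ?_ f hf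
    · intro a ha
      obtain ⟨n, hn⟩ := M.dn p.1 a ha
      refine ⟨n, ?_⟩
      have h1 : rH M h N p ^ n * a = M.H p.1 ^ n * a *
          (M.H p.1 ^ N0 * h p.1 p.2) ^ n := by
        rw [rH, show N = N0 + 1 from rfl, pow_succ]
        ring
      rw [h1]
      exact R.mul_mem hn (R.pow_mem (hR1 p _ le_rfl) n)
    · rintro a b ⟨n, hn⟩ ⟨m, hm⟩
      refine ⟨n + m, ?_⟩
      have h1 : rH M h N p ^ (n + m) * (a + b) =
          rH M h N p ^ m * (rH M h N p ^ n * a) +
          rH M h N p ^ n * (rH M h N p ^ m * b) := by ring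
      rw [h1]
      exact R.add_mem (R.mul_mem (R.pow_mem (hHR p) m) hn) (R.mul_mem (R.pow_mem (hHR p) n) hm)
    · rintro a ⟨n, hn⟩
      refine ⟨n + 1, ?_⟩
      have h1 : rH M h N p ^ (n + 1) * (a * (h p.1 p.2)⁻¹) =
          rH M h N p ^ n * a * M.H p.1 ^ N := by
        have h2 : rH M h N p * (h p.1 p.2)⁻¹ = M.H p.1 ^ N := by
          rw [rH]
          have := hne p.1 p.2
          field_simp
        rw [← h2]; ring
      rw [h1]
      exact R.mul_mem hn (R.pow_mem (M.HR _) _)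
  · intro V hV
    obtain ⟨t, ht⟩ := M.cv V hV
    obtain ⟨b, hb⟩ := hcov t V ht
    exact ⟨(t, b), adj_induction (M.A t) (h t b)⁻¹ ht (fun a b ha hb => V.add_mem _ _ ha hb)
        (fun a ha => V.mul_mem _ _ ha hb)⟩
  · intro p p' i
    refine ⟨N1, ?_⟩
    rw [hρ, mul_pow, mul_right_comm]
    exact (rA M h p).mul_mem (le_rA M h p ((hN1 N1 le_rfl).1 _ _ _))
      ((rA M h p).pow_mem (hq p p' _ le_rfl) N1)
  · intro p
    exact (M.snc p.1).loc (M.xA p.1) (hmem p.1 p.2) (hne p.1 p.2)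

end refine

end Pool.Agent.W558
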